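import Pool.Agent.H91.NV.Void
import Pool.Agent.H46.PR.Thr4

/-!
# Real functions which are closed up to an error

`ApC`: near a function of the point and near a function of the line. `apc_round`: on a half of the
event a closed code knows finitely many of them. `apc_lin`: a linear form in natural heights and
coordinates which does not move along the own line is closed up to an error.
-/

set_option autoImplicit false

namespace Pool.NV91

open Finset Real MvPolynomial
open Pool.Agent.H49.Ent Pool.Agent.H32.Dense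
open Pool.STK hiding pr2
open Pool.KA Pool.KSAT Pool.K2S Pool.PB Pool.S6C
open Pool.GEN Pool.CHT Pool.CHX Pool.ISO Pool.LA91 Pool.AVG71 Pool.AVG5 Pool.D2F2 Pool.AVG57
open Pool.RCD Pool.AVG96 Pool.OWN68 Pool.V0F Pool.V0Q Pool.V0T

variable {m : ℕ}

/-- **Closed up to** `δ`: near a function of the point and near a function of the line. -/
def ApC {J : ℕ} (F : Fam m J) (w : ℝ) (B : F.Ω → Prop) (δ : ℝ) (a : F.Ω → ℝ) : Prop :=
  ∃ (P : PtT F → ℝ) (L : LnT F → ℝ), ∀ ω, B ω →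
    |a ω - P (ptr F J ω)| ≤ δ ∧ |a ω - L (vg w J F ω)| ≤ δ

theorem ApC.mono {J : ℕ} {F : Fam m J} {w : ℝ} {B : F.Ω → Prop} {δ δ' : ℝ} {a : F.Ω → ℝ}
    (h : ApC F w B δ a) (hδ : δ ≤ δ') : ApC F w B δ' a := by
  obtain ⟨P, L, h⟩ := h
  exact ⟨P, L, fun ω hω => ⟨(h ω hω).1.trans hδ, (h ω hω).2.trans hδ⟩⟩

/-- **A common closed code** for finitely many functions which are closed up to `δ`. -/
theorem apc_round {J : ℕ} {F : Fam m J} {w : ℝ} {B : F.Ω → Prop} {α : Type} [Fintype α]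
    {a : α → F.Ω → ℝ} {δ : ℝ} (hδ : 0 < δ) (h : ∀ j, ApC F w B δ (a j)) :
    ∃ B' : F.Ω → Prop, Sub B' B ∧ Pe F.p B / 2 ≤ Pe F.p B' ∧ ∃ (V : Type) (z : F.Ω → V),
      Cl2 (ptr F J) (vg w J F) B' z ∧ ∀ ω ω', B' ω → B' ω' → z ω = z ω' → ∀ j,
        |a j ω - a j ω'| ≤ (12 * (Fintype.card α : ℝ) + 6) * δ := by
  classical
  choose P L hPL using h
  obtain ⟨n, hn⟩ : ∃ n : ℕ, n = Fintype.card α := ⟨_, rfl⟩
  obtain ⟨M, hM⟩ : ∃ M : ℕ, M = 3 * n + 1 := ⟨_, rfl⟩
  have hM1 : 1 ≤ M := by omega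
  have hM0 : (0 : ℝ) < M := by exact_mod_cast hM1
  have hMn : (M : ℝ) = 3 * n + 1 := by rw [hM]; push_cast; ring
  have hn0 : (0 : ℝ) ≤ n := Nat.cast_nonneg n
  obtain ⟨h₀, hh₀⟩ : ∃ h₀ : ℝ, h₀ = 4 * δ * M := ⟨_, rfl⟩
  have hh0 : 0 < h₀ := by rw [hh₀]; positivity
  obtain ⟨bad, hbad⟩ : ∃ bad : ℕ → α → F.Ω → Prop, bad = fun (i : ℕ) j ω =>
    ⌊P j (ptr F J ω) / h₀ + (i : ℝ) / M⌋ ≠ ⌊L j (vg w J F ω) / h₀ + (i : ℝ) / M⌋ := ⟨_, rfl⟩
  have hp0 := F.isLaw.nonneg
  -- few bad shifts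
  have hcard : ∀ ω, B ω → ∀ j, (((Finset.range M).filter fun i => bad i j ω).card : ℝ) ≤ 3 / 2 := by
    intro ω hω j
    obtain ⟨h1, h2⟩ := hPL j ω hω
    have h3 : |P j (ptr F J ω) / h₀ - L j (vg w J F ω) / h₀| ≤ 1 / (2 * M) := by
      rw [← sub_div, abs_div, abs_of_pos hh0, div_le_div_iff₀ hh0 (by positivity)]
      have h4 : |P j (ptr F J ω) - L j (vg w J F ω)| ≤ 2 * δ := by
        have a1 := abs_le.1 h1
        have a2 := abs_le.1 h2
        rw [abs_le]
        constructor <;> linarith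
      have := mul_le_mul_of_nonneg_right h4 (show 0 ≤ 2 * (M : ℝ) by positivity)
      rw [hh₀]
      linarith
    have h5 := Pool.PR46.shift_card (by positivity) h3 M hM1
    have h6 : ((Finset.range M).filter fun i => bad i j ω) = (Finset.range M).filter
        fun i : ℕ => ⌊P j (ptr F J ω) / h₀ + i / M⌋ ≠ ⌊L j (vg w J F ω) / h₀ + i / M⌋ :=
      Finset.filter_congr fun i _ => by rw [hbad]
    rw [h6]
    refine h5.trans (le_of_eq ?_)
    field_simp
    ring
  have hsum : ∑ i ∈ range M, Pe F.p (fun ω => B ω ∧ ∃ j, bad i j ω) ≤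
      n * (3 / 2) * Pe F.p B := by
    have e1 : ∀ i ∈ range M, Pe F.p (fun ω => B ω ∧ ∃ j, bad i j ω) ≤
        ∑ j, ∑ ω, (if B ω ∧ bad i j ω then F.p ω else 0) := by
      intro i _
      rw [Pe_eq, Finset.sum_comm]
      refine Finset.sum_le_sum fun ω _ => ?_
      by_cases h1 : B ω ∧ ∃ j, bad i j ω
      · rw [if_pos h1]
        obtain ⟨h2, j, h3⟩ := h1
        refine le_trans (le_of_eq ?_) (Finset.single_le_sum (f := fun j =>
          if B ω ∧ bad i j ω then F.p ω else 0) (fun j _ => ?_) (Finset.mem_univ j))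
        · simp only [if_pos (show B ω ∧ bad i j ω from ⟨h2, h3⟩)]
        · show 0 ≤ (if B ω ∧ bad i j ω then F.p ω else 0)
          split_ifs
          · exact hp0 ω
          · exact le_rfl
      · rw [if_neg h1]
        refine Finset.sum_nonneg fun j _ => ?_
        split_ifs
        · exact hp0 ω
        · exact le_rfl
    refine (Finset.sum_le_sum e1).trans ?_
    rw [Finset.sum_comm]
    have e2 : ∀ j ∈ (univ : Finset α), ∑ i ∈ range M, ∑ ω, (if B ω ∧ bad i j ω then F.p ω else 0) ≤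
        3 / 2 * Pe F.p B := by
      intro j _
      rw [Finset.sum_comm, Pe_eq, Finset.mul_sum]
      refine Finset.sum_le_sum fun ω _ => ?_
      by_cases h1 : B ω
      · rw [if_pos h1]
        have e3 : ∑ i ∈ range M, (if B ω ∧ bad i j ω then F.p ω else 0) =
            (((Finset.range M).filter fun i => bad i j ω).card : ℝ) * F.p ω := by
          rw [← nsmul_eq_mul, ← Finset.sum_const, Finset.sum_filter]
          refine Finset.sum_congr rfl fun i _ => ?_
          by_cases h2 : bad i j ω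
          · rw [if_pos ⟨h1, h2⟩, if_pos h2]
          · rw [if_neg (fun h => h2 h.2), if_neg h2]
        rw [e3]
        exact mul_le_mul_of_nonneg_right (hcard ω h1 j) (hp0 ω)
      · rw [if_neg h1, mul_zero]
        refine le_of_eq (Finset.sum_eq_zero fun i _ => if_neg fun h => h1 h.1)
    refine (Finset.sum_le_sum e2).trans (le_of_eq ?_)
    rw [Finset.sum_const, Finset.card_univ, nsmul_eq_mul, ← hn]
    ring
  -- a good shift
  obtain ⟨i, hi, hgood⟩ : ∃ i ∈ range M, Pe F.p (fun ω => B ω ∧ ∃ j, bad i j ω) ≤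
      Pe F.p B / 2 := by
    by_contra hcon
    push Not at hcon
    have hB0 : 0 ≤ Pe F.p B := by
      rw [Pe_eq]
      exact Finset.sum_nonneg fun ω _ => by split_ifs <;> [exact hp0 ω; exact le_rfl]
    have h1 : ∑ _i ∈ range M, Pe F.p B / 2 < ∑ i ∈ range M,
        Pe F.p (fun ω => B ω ∧ ∃ j, bad i j ω) :=
      Finset.sum_lt_sum_of_nonempty ⟨0, Finset.mem_range.mpr (by omega)⟩ hcon
    rw [Finset.sum_const, Finset.card_range, nsmul_eq_mul, hMn] at h1
    nlinarith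
  refine ⟨fun ω => B ω ∧ ∀ j, ¬ bad i j ω, fun ω h => h.1, ?_, α → ℤ,
    fun ω j => ⌊P j (ptr F J ω) / h₀ + (i : ℝ) / M⌋, ⟨?_, ?_⟩, ?_⟩
  · have h1 : Pe F.p B ≤ Pe F.p (fun ω => B ω ∧ ∃ j, bad i j ω) +
        Pe F.p (fun ω => B ω ∧ ∀ j, ¬ bad i j ω) := Pe_or F.isLaw fun ω hω => by
      by_cases h2 : ∃ j, bad i j ω
      · exact Or.inl ⟨hω, h2⟩
      · push Not at h2
        exact Or.inr ⟨hω, h2⟩
    linarith
  · exact ⟨fun x j => ⌊P j x / h₀ + (i : ℝ) / M⌋, fun ω _ => rfl⟩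
  · refine ⟨fun x j => ⌊L j x / h₀ + (i : ℝ) / M⌋, fun ω hω => ?_⟩
    funext j
    have := hω.2 j
    rw [hbad] at this
    exact not_not.1 this
  · intro ω ω' hω hω' e j
    have h1 : ⌊P j (ptr F J ω) / h₀ + (i : ℝ) / M⌋ = ⌊P j (ptr F J ω') / h₀ + (i : ℝ) / M⌋ :=
      congrFun e j
    have h2 := Int.abs_sub_lt_one_of_floor_eq_floor h1
    have e3 : P j (ptr F J ω) / h₀ + (i : ℝ) / M - (P j (ptr F J ω') / h₀ + (i : ℝ) / M) =
        (P j (ptr F J ω) - P j (ptr F J ω')) / h₀ := by ring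
    rw [e3, abs_div, abs_of_pos hh0, div_lt_one hh0] at h2
    have a1 := abs_le.1 (hPL j ω hω.1).1
    have a2 := abs_le.1 (hPL j ω' hω'.1).1
    have a3 := abs_lt.1 h2
    have e4 : h₀ = (12 * (n : ℝ) + 4) * δ := by
      rw [hh₀, hMn]
      ring
    rw [← hn]
    rw [abs_le]
    constructor <;> linarith

/-- **A linear form which does not move along the own line** is closed up to an error. `nP, tP`:
functions of the point; `nL, tL`: of the line. -/
theorem apc_lin {J : ℕ} {F : Fam m J} {w : ℝ} {B : F.Ω → Prop} {d : ℕ} {δ K : ℝ} (hδ : 0 ≤ δ)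
    (hδ1 : δ ≤ 1) (hK : 1 ≤ K) {U : Fin 2 → F.Ω → ℝ} {x : Fin d → F.Ω → ℝ} {s : F.Ω → ℝ}
    {UP : PtT F → Fin 2 → ℝ} {xP : PtT F → Fin d → ℝ} {U0 Dl : LnT F → Fin 2 → ℝ}
    {x0 ee : LnT F → Fin d → ℝ} {Jp : PtT F → Fin d → Fin 2 → ℝ} {nP : PtT F → Fin 2 → ℝ}
    {tP : PtT F → Fin d → ℝ} {nL : LnT F → Fin 2 → ℝ} {tL : LnT F → Fin d → ℝ}
    -- the sizes
    (hs : ∀ ω, B ω → |s ω| ≤ K) (hU : ∀ ω, B ω → ∀ l, |U l ω| ≤ 2 * K)
    (hx : ∀ ω, B ω → ∀ j, |x j ω| ≤ K) (hD : ∀ ω, B ω → ∀ l, |Dl (vg w J F ω) l| ≤ K)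
    (he : ∀ ω, B ω → ∀ j, |ee (vg w J F ω) j| ≤ K)
    (hJ : ∀ ω, B ω → ∀ j l, |Jp (ptr F J ω) j l| ≤ K)
    -- functions of the point
    (hUP : ∀ ω, B ω → ∀ l, |U l ω - UP (ptr F J ω) l| ≤ δ)
    (hxP : ∀ ω, B ω → ∀ j, |x j ω - xP (ptr F J ω) j| ≤ δ)
    -- the motion along the own line
    (hU0 : ∀ ω, B ω → ∀ l, |U l ω - (U0 (vg w J F ω) l + Dl (vg w J F ω) l * s ω)| ≤ δ)
    (hx0 : ∀ ω, B ω → ∀ j, |x j ω - (x0 (vg w J F ω) j + ee (vg w J F ω) j * s ω)| ≤ δ)
    (hJD : ∀ ω, B ω → ∀ l, |∑ j, ee (vg w J F ω) j * Jp (ptr F J ω) j l -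
      Dl (vg w J F ω) l| ≤ δ)
    -- the closed combination
    (hn1 : ∀ y l, |nP y l| ≤ 1) (hn2 : ∀ y l, |nL y l| ≤ 1)
    (hnt : ∀ ω, B ω → ∀ j, |∑ l, Jp (ptr F J ω) j l * nP (ptr F J ω) l -
      tP (ptr F J ω) j| ≤ δ)
    (hn : ∀ ω, B ω → ∀ l, |nP (ptr F J ω) l - nL (vg w J F ω) l| ≤ δ)
    (ht : ∀ ω, B ω → ∀ j, |tP (ptr F J ω) j - tL (vg w J F ω) j| ≤ δ) :
    (∀ ω, B ω → ∀ j, |tP (ptr F J ω) j| ≤ 3 * K) ∧
    ApC F w B ((10 + 7 * (d : ℝ)) * K ^ 2 * δ) (fun ω => ∑ l, nP (ptr F J ω) l * U l ω -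
      ∑ j, tP (ptr F J ω) j * x j ω) := by
  have hK0 : 0 ≤ K := by linarith
  have hd0 : (0 : ℝ) ≤ d := Nat.cast_nonneg d
  have htP : ∀ ω, B ω → ∀ j, |tP (ptr F J ω) j| ≤ 3 * K := by
    intro ω hω j
    have h1 := hnt ω hω j
    rw [Fin.sum_univ_two] at h1
    have h2 : ∀ l, |Jp (ptr F J ω) j l * nP (ptr F J ω) l| ≤ K := fun l => by
      rw [abs_mul]
      have := mul_le_mul (hJ ω hω j l) (hn1 (ptr F J ω) l) (abs_nonneg _) hK0
      linarith
    have h3 := abs_le.1 (h2 0)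
    have h4 := abs_le.1 (h2 1)
    have h5 := abs_le.1 h1
    rw [abs_le]
    constructor <;> linarith
  have htL : ∀ ω, B ω → ∀ j, |tL (vg w J F ω) j| ≤ 4 * K := fun ω hω j => by
    have h1 := abs_le.1 (htP ω hω j)
    have h2 := abs_le.1 (ht ω hω j)
    rw [abs_le]
    constructor <;> linarith
  refine ⟨htP, fun y => ∑ l, nP y l * UP y l - ∑ j, tP y j * xP y j,
    fun v => ∑ l, nL v l * U0 v l - ∑ j, tL v j * x0 v j, fun ω hω => ⟨?_, ?_⟩⟩
  · -- the point
    obtain ⟨y, hy⟩ : ∃ y, y = ptr F J ω := ⟨_, rfl⟩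
    show |∑ l, nP (ptr F J ω) l * U l ω - ∑ j, tP (ptr F J ω) j * x j ω -
      (∑ l, nP (ptr F J ω) l * UP (ptr F J ω) l - ∑ j, tP (ptr F J ω) j * xP (ptr F J ω) j)| ≤ _
    rw [← hy]
    have e1 : ∑ l, nP y l * U l ω - ∑ j, tP y j * x j ω -
        (∑ l, nP y l * UP y l - ∑ j, tP y j * xP y j) =
        ∑ l, nP y l * (U l ω - UP y l) - ∑ j, tP y j * (x j ω - xP y j) := by
      simp only [mul_sub, Finset.sum_sub_distrib]
      ring
    rw [e1]
    have h1 : |∑ l, nP y l * (U l ω - UP y l)| ≤ 2 * δ := by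
      refine (Finset.abs_sum_le_sum_abs _ _).trans ?_
      have h2 : ∀ l ∈ (univ : Finset (Fin 2)), |nP y l * (U l ω - UP y l)| ≤ δ := fun l _ => by
        rw [abs_mul, hy]
        have := mul_le_mul (hn1 (ptr F J ω) l) (hUP ω hω l) (abs_nonneg _) zero_le_one
        linarith
      refine (Finset.sum_le_sum h2).trans (le_of_eq ?_)
      rw [Finset.sum_const, Finset.card_univ, Fintype.card_fin, nsmul_eq_mul]
      norm_num
    have h2 : |∑ j, tP y j * (x j ω - xP y j)| ≤ d * (3 * K * δ) := by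
      refine (Finset.abs_sum_le_sum_abs _ _).trans ?_
      have h2 : ∀ j ∈ (univ : Finset (Fin d)), |tP y j * (x j ω - xP y j)| ≤ 3 * K * δ :=
        fun j _ => by
        rw [abs_mul, hy]
        exact mul_le_mul (htP ω hω j) (hxP ω hω j) (abs_nonneg _) (by positivity)
      refine (Finset.sum_le_sum h2).trans (le_of_eq ?_)
      rw [Finset.sum_const, Finset.card_univ, Fintype.card_fin, nsmul_eq_mul]
    have h3 : K * δ ≤ K ^ 2 * δ := by
      refine mul_le_mul_of_nonneg_right ?_ hδ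
      nlinarith
    have h4 : δ ≤ K ^ 2 * δ := by
      have : 1 * δ ≤ K ^ 2 * δ := mul_le_mul_of_nonneg_right (by nlinarith) hδ
      linarith
    have h5 : d * (3 * K * δ) ≤ d * (3 * (K ^ 2 * δ)) :=
      mul_le_mul_of_nonneg_left (by linarith) hd0
    have h6 : (10 + 7 * (d : ℝ)) * K ^ 2 * δ = 10 * (K ^ 2 * δ) + 7 * (d * (K ^ 2 * δ)) := by ring
    have h7 : 0 ≤ d * (K ^ 2 * δ) := by positivity
    have h8 : 0 ≤ K ^ 2 * δ := by positivity
    rw [h6]
    have g1 := abs_le.1 h1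
    have g2 := abs_le.1 h2
    rw [abs_le]
    constructor <;> linarith
  · -- the line
    obtain ⟨y, hy⟩ : ∃ y, y = ptr F J ω := ⟨_, rfl⟩
    obtain ⟨v, hv⟩ : ∃ v, v = vg w J F ω := ⟨_, rfl⟩
    have hU' := hU ω hω
    have hs' := hs ω hω
    have hx' := hx ω hω
    have hD' := hD ω hω
    have he' := he ω hω
    have hU0' := hU0 ω hω
    have hx0' := hx0 ω hω
    have hJD' := hJD ω hω
    have hnt' := hnt ω hω
    have hn' := hn ω hω
    have ht' := ht ω hω
    have htL' := htL ω hω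
    rw [← hy, ← hv] at hJD' hn' ht'
    rw [← hv] at hD' he' hU0' hx0' htL'
    rw [← hy] at hnt'
    have n1 := hn1 y
    have n2 := hn2 v
    show |∑ l, nP (ptr F J ω) l * U l ω - ∑ j, tP (ptr F J ω) j * x j ω -
      (∑ l, nL (vg w J F ω) l * U0 (vg w J F ω) l - ∑ j, tL (vg w J F ω) j *
        x0 (vg w J F ω) j)| ≤ _
    rw [← hy, ← hv]
    -- the own velocity of the form
    have k1 : |∑ l, nL v l * Dl v l - ∑ j, tL v j * ee v j| ≤ (2 * K + 2 + 2 * d * K) * δ := by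
      have e1 : ∑ l, nL v l * Dl v l - ∑ j, tL v j * ee v j =
          (∑ l, (nL v l - nP y l) * Dl v l) +
          (∑ l, nP y l * (Dl v l - ∑ j, ee v j * Jp y j l)) +
          (∑ j, ee v j * (∑ l, Jp y j l * nP y l - tP y j)) +
          (∑ j, ee v j * (tP y j - tL v j)) := by
        have e2 : ∑ l, nP y l * ∑ j, ee v j * Jp y j l =
            ∑ j, ee v j * ∑ l, Jp y j l * nP y l := by
          simp only [Finset.mul_sum]
          rw [Finset.sum_comm]
          refine Finset.sum_congr rfl fun j _ => Finset.sum_congr rfl fun l _ => ?_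
          ring
        simp only [mul_sub, sub_mul, Finset.sum_sub_distrib]
        rw [e2]
        have e3 : ∑ j, tL v j * ee v j = ∑ j, ee v j * tL v j :=
          Finset.sum_congr rfl fun j _ => mul_comm _ _
        rw [e3]
        ring
      have b1 : |∑ l, (nL v l - nP y l) * Dl v l| ≤ 2 * (K * δ) := by
        refine (Finset.abs_sum_le_sum_abs _ _).trans ?_
        have h2 : ∀ l ∈ (univ : Finset (Fin 2)), |(nL v l - nP y l) * Dl v l| ≤ K * δ :=
          fun l _ => by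
          rw [abs_mul, abs_sub_comm, mul_comm K δ]
          exact mul_le_mul (hn' l) (hD' l) (abs_nonneg _) hδ
        refine (Finset.sum_le_sum h2).trans (le_of_eq ?_)
        rw [Finset.sum_const, Finset.card_univ, Fintype.card_fin, nsmul_eq_mul]
        norm_num
      have b2 : |∑ l, nP y l * (Dl v l - ∑ j, ee v j * Jp y j l)| ≤ 2 * δ := by
        refine (Finset.abs_sum_le_sum_abs _ _).trans ?_
        have h2 : ∀ l ∈ (univ : Finset (Fin 2)),
            |nP y l * (Dl v l - ∑ j, ee v j * Jp y j l)| ≤ δ := fun l _ => by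
          rw [abs_mul, abs_sub_comm]
          have := mul_le_mul (n1 l) (hJD' l) (abs_nonneg _) zero_le_one
          linarith
        refine (Finset.sum_le_sum h2).trans (le_of_eq ?_)
        rw [Finset.sum_const, Finset.card_univ, Fintype.card_fin, nsmul_eq_mul]
        norm_num
      have b3 : |∑ j, ee v j * (∑ l, Jp y j l * nP y l - tP y j)| ≤ d * (K * δ) := by
        refine (Finset.abs_sum_le_sum_abs _ _).trans ?_
        have h2 : ∀ j ∈ (univ : Finset (Fin d)),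
            |ee v j * (∑ l, Jp y j l * nP y l - tP y j)| ≤ K * δ := fun j _ => by
          rw [abs_mul]
          exact mul_le_mul (he' j) (hnt' j) (abs_nonneg _) hK0
        refine (Finset.sum_le_sum h2).trans (le_of_eq ?_)
        rw [Finset.sum_const, Finset.card_univ, Fintype.card_fin, nsmul_eq_mul]
      have b4 : |∑ j, ee v j * (tP y j - tL v j)| ≤ d * (K * δ) := by
        refine (Finset.abs_sum_le_sum_abs _ _).trans ?_
        have h2 : ∀ j ∈ (univ : Finset (Fin d)), |ee v j * (tP y j - tL v j)| ≤ K * δ :=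
          fun j _ => by
          rw [abs_mul]
          exact mul_le_mul (he' j) (ht' j) (abs_nonneg _) hK0
        refine (Finset.sum_le_sum h2).trans (le_of_eq ?_)
        rw [Finset.sum_const, Finset.card_univ, Fintype.card_fin, nsmul_eq_mul]
      rw [e1]
      have c1 := abs_le.1 b1
      have c2 := abs_le.1 b2
      have c3 := abs_le.1 b3
      have c4 := abs_le.1 b4
      have e5 : (2 * K + 2 + 2 * d * K) * δ = 2 * (K * δ) + 2 * δ + 2 * (d * (K * δ)) := by ring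
      rw [e5, abs_le]
      constructor <;> linarith
    have k2 : |(∑ l, nL v l * Dl v l - ∑ j, tL v j * ee v j) * s ω| ≤
        (4 + 2 * d) * (K ^ 2 * δ) := by
      rw [abs_mul]
      refine (mul_le_mul k1 hs' (abs_nonneg _) (by positivity)).trans ?_
      have h1 : (2 * K + 2 + 2 * d * K) * δ * K = 2 * (K ^ 2 * δ) + 2 * (K * δ) +
          2 * (d * (K ^ 2 * δ)) := by ring
      have h3 : K * δ ≤ K ^ 2 * δ := by
        refine mul_le_mul_of_nonneg_right ?_ hδ
        nlinarith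
      rw [h1]
      linarith
    have b1 : |∑ l, (nP y l - nL v l) * U l ω| ≤ 4 * (K * δ) := by
      refine (Finset.abs_sum_le_sum_abs _ _).trans ?_
      have h2 : ∀ l ∈ (univ : Finset (Fin 2)), |(nP y l - nL v l) * U l ω| ≤ 2 * (K * δ) :=
        fun l _ => by
        rw [abs_mul]
        have := mul_le_mul (hn' l) (hU' l) (abs_nonneg _) hδ
        linarith
      refine (Finset.sum_le_sum h2).trans (le_of_eq ?_)
      rw [Finset.sum_const, Finset.card_univ, Fintype.card_fin, nsmul_eq_mul]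
      push_cast
      ring
    have b2 : |∑ l, nL v l * (U l ω - (U0 v l + Dl v l * s ω))| ≤ 2 * δ := by
      refine (Finset.abs_sum_le_sum_abs _ _).trans ?_
      have h2 : ∀ l ∈ (univ : Finset (Fin 2)),
          |nL v l * (U l ω - (U0 v l + Dl v l * s ω))| ≤ δ := fun l _ => by
        rw [abs_mul]
        have := mul_le_mul (n2 l) (hU0' l) (abs_nonneg _) zero_le_one
        linarith
      refine (Finset.sum_le_sum h2).trans (le_of_eq ?_)
      rw [Finset.sum_const, Finset.card_univ, Fintype.card_fin, nsmul_eq_mul]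
      norm_num
    have b3 : |∑ j, (tP y j - tL v j) * x j ω| ≤ d * (K * δ) := by
      refine (Finset.abs_sum_le_sum_abs _ _).trans ?_
      have h2 : ∀ j ∈ (univ : Finset (Fin d)), |(tP y j - tL v j) * x j ω| ≤ K * δ :=
        fun j _ => by
        rw [abs_mul, mul_comm K δ]
        exact mul_le_mul (ht' j) (hx' j) (abs_nonneg _) hδ
      refine (Finset.sum_le_sum h2).trans (le_of_eq ?_)
      rw [Finset.sum_const, Finset.card_univ, Fintype.card_fin, nsmul_eq_mul]
    have b4 : |∑ j, tL v j * (x j ω - (x0 v j + ee v j * s ω))| ≤ d * (4 * K * δ) := by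
      refine (Finset.abs_sum_le_sum_abs _ _).trans ?_
      have h2 : ∀ j ∈ (univ : Finset (Fin d)),
          |tL v j * (x j ω - (x0 v j + ee v j * s ω))| ≤ 4 * K * δ := fun j _ => by
        rw [abs_mul]
        exact mul_le_mul (htL' j) (hx0' j) (abs_nonneg _) (by positivity)
      refine (Finset.sum_le_sum h2).trans (le_of_eq ?_)
      rw [Finset.sum_const, Finset.card_univ, Fintype.card_fin, nsmul_eq_mul]
    have e1 : ∑ l, nP y l * U l ω - ∑ j, tP y j * x j ω -
        (∑ l, nL v l * U0 v l - ∑ j, tL v j * x0 v j) =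
        (∑ l, (nP y l - nL v l) * U l ω) + (∑ l, nL v l * (U l ω - (U0 v l + Dl v l * s ω))) -
        (∑ j, (tP y j - tL v j) * x j ω) - (∑ j, tL v j * (x j ω - (x0 v j + ee v j * s ω))) +
        (∑ l, nL v l * Dl v l - ∑ j, tL v j * ee v j) * s ω := by
      simp only [mul_sub, sub_mul, mul_add, Finset.sum_sub_distrib, Finset.sum_add_distrib,
        Finset.sum_mul, ← mul_assoc]
      ring
    rw [e1]
    have h3 : K * δ ≤ K ^ 2 * δ := by
      refine mul_le_mul_of_nonneg_right ?_ hδ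
      nlinarith
    have h4 : δ ≤ K ^ 2 * δ := by
      have : 1 * δ ≤ K ^ 2 * δ := mul_le_mul_of_nonneg_right (by nlinarith) hδ
      linarith
    have h5 : d * (K * δ) ≤ d * (K ^ 2 * δ) := mul_le_mul_of_nonneg_left h3 hd0
    have h6 : (10 + 7 * (d : ℝ)) * K ^ 2 * δ = 10 * (K ^ 2 * δ) + 7 * (d * (K ^ 2 * δ)) := by ring
    have h7 : d * (4 * K * δ) = 4 * (d * (K * δ)) := by ring
    have h8 : (4 + 2 * (d : ℝ)) * (K ^ 2 * δ) = 4 * (K ^ 2 * δ) + 2 * (d * (K ^ 2 * δ)) := by ring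
    rw [h7] at b4
    rw [h8] at k2
    rw [h6]
    have c1 := abs_le.1 b1
    have c2 := abs_le.1 b2
    have c3 := abs_le.1 b3
    have c4 := abs_le.1 b4
    have c5 := abs_le.1 k2
    rw [abs_le]
    constructor <;> linarith

end Pool.NV91
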