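import Pool.Agent.H91.NV.Law2
import Pool.Agent.H37.CLO.Core

/-!
# The finite lemma `NvLaw`

`nvLaw : NvLaw`. Ten classes of points: the matrix `B = b + J d` is small (pivot and column of `d`);
its determinant is small (the place of the largest entry); its determinant is large (the sign).
-/

set_option autoImplicit false

namespace Pool.NV91

open Finset Real
open Pool.Agent.H49.Ent Pool.Agent.H32.Dense Pool.STK Pool.KA Pool.PB Pool.GEN Pool.KSAT Pool.K2S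
open Pool.NV48

/-- A vector with pivot one. -/
theorem fin_piv (i : Fin 2) : (Pi.single i (1 : ℝ) : Fin 2 → ℝ) i = 1 ∧
    ∀ l, |(Pi.single i (1 : ℝ) : Fin 2 → ℝ) l| ≤ 1 := by
  refine ⟨Pi.single_eq_same i 1, fun l => ?_⟩
  by_cases h : l = i
  · rw [h, Pi.single_eq_same, abs_one]
  · rw [Pi.single_eq_of_ne h, abs_zero]
    exact zero_le_one

theorem div_piv {v : Fin 2 → ℝ} {i : Fin 2} (h0 : v i ≠ 0) (h : ∀ l, |v l| ≤ |v i|) :
    v i / v i = 1 ∧ ∀ l, |v l / v i| ≤ 1 := by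
  refine ⟨div_self h0, fun l => ?_⟩
  rw [abs_div]
  exact div_le_one_of_le₀ (h l) (abs_nonneg _)

/-- The end of the lemma: codes of the points nearly the same over one line. -/
theorem law_fin {Ω Λ Γ : Type} [Fintype Ω] {p : Ω → ℝ} {L : Ω → Λ} {P : Ω → Γ}
    {J : Γ → Fin 2 → Fin 2 → ℝ} {δ m₀ : ℝ} {E : Ω → Prop} {i : Fin 2} {nP : Γ → Fin 2 → ℝ}
    (hn : ∀ x, nP x i = 1 ∧ ∀ l, |nP x l| ≤ 1) (hδ : 0 ≤ δ) (hm : m₀ ≤ Pe p E)
    (h : ∀ ω ω', 0 < p ω → 0 < p ω' → E ω → E ω' → L ω = L ω' →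
      (∀ l, |nP (P ω) l - nP (P ω') l| ≤ δ) ∧
        ∀ j, |∑ l, J (P ω) j l * nP (P ω) l - ∑ l, J (P ω') j l * nP (P ω') l| ≤ δ) :
    ∃ (E : Ω → Prop) (i : Fin 2) (nP tP : Γ → Fin 2 → ℝ) (nL tL : Λ → Fin 2 → ℝ),
      m₀ ≤ Pe p E ∧ (∀ x, nP x i = 1 ∧ ∀ l, |nP x l| ≤ 1) ∧ (∀ x, nL x i = 1 ∧ ∀ l, |nL x l| ≤ 1) ∧
      ∀ ω, 0 < p ω → E ω → (∀ j, |∑ l, J (P ω) j l * nP (P ω) l - tP (P ω) j| ≤ δ) ∧
        (∀ l, |nP (P ω) l - nL (L ω) l| ≤ δ) ∧ ∀ j, |tP (P ω) j - tL (L ω) j| ≤ δ := by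
  classical
  have h1 : ∀ v : Λ, ∃ a t : Fin 2 → ℝ, (a i = 1 ∧ ∀ l, |a l| ≤ 1) ∧
      ∀ ω, 0 < p ω → E ω → L ω = v → (∀ l, |nP (P ω) l - a l| ≤ δ) ∧
        ∀ j, |∑ l, J (P ω) j l * nP (P ω) l - t j| ≤ δ := by
    intro v
    by_cases hv : ∃ ω, 0 < p ω ∧ E ω ∧ L ω = v
    · obtain ⟨ω', hp', hE', hL'⟩ := hv
      exact ⟨nP (P ω'), fun j => ∑ l, J (P ω') j l * nP (P ω') l, hn _, fun ω hp hE hL =>
        h ω ω' hp hp' hE hE' (hL.trans hL'.symm)⟩
    · exact ⟨Pi.single i 1, 0, fin_piv i, fun ω hp hE hL => (hv ⟨ω, hp, hE, hL⟩).elim⟩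
  choose nL tL hL1 hL2 using h1
  refine ⟨E, i, nP, fun x j => ∑ l, J x j l * nP x l, nL, tL, hm, hn, hL1, fun ω hp hE => ?_⟩
  obtain ⟨a1, a2⟩ := hL2 _ ω hp hE rfl
  refine ⟨fun j => ?_, a1, a2⟩
  rw [sub_self, abs_zero]
  exact hδ

/-- The event of positive mass. -/
theorem pe_one {Ω : Type} [Fintype Ω] {p : Ω → ℝ} (hp : IsLaw p) :
    Pe p (fun ω => 0 < p ω) = 1 := by
  classical
  rw [Pe_eq, ← hp.sum_one]
  refine Finset.sum_congr rfl fun ω _ => ?_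
  split_ifs with h
  · rfl
  · exact le_antisymm (hp.nonneg ω) (not_lt.1 h)

theorem pe_or2 {Ω : Type} [Fintype Ω] {p : Ω → ℝ} (hp : IsLaw p) {X Y Z : Ω → Prop}
    (h : ∀ ω, X ω → Y ω ∨ Z ω) : Pe p X ≤ Pe p Y + Pe p Z := by
  classical
  rw [Pe_eq, Pe_eq, Pe_eq, ← Finset.sum_add_distrib]
  refine Finset.sum_le_sum fun ω _ => ?_
  have h0 := hp.nonneg ω
  by_cases hX : X ω
  · rcases h ω hX with hY | hZ
    · rw [if_pos hX, if_pos hY]
      split_ifs <;> linarith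
    · rw [if_pos hX, if_pos hZ]
      split_ifs <;> linarith
  · rw [if_neg hX]
    split_ifs <;> linarith

/-- An entry of `d` is not small when `B` is small. -/
theorem ex_d {R : ℝ} {M : Hs} {J : Fin 2 → Fin 2 → ℝ} (hR : 2 ≤ R) (hJ : ∀ j l, |J j l| ≤ R)
    (hbd : ∃ j l, 1 / 2 ≤ |M.b j l| ∨ 1 / 2 ≤ |M.d j l|)
    (h : ∀ j l, |Bm M J j l| ≤ (R ^ 8)⁻¹) :
    ∃ i k, (R ^ 4)⁻¹ ≤ |M.d i k| ∧ ∀ l, |M.d l k| ≤ |M.d i k| := by
  have i8 : (R ^ 8)⁻¹ ≤ (R ^ 4)⁻¹ := iv_mono hR (by norm_num)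
  have i3 : 2 * (R ^ 4)⁻¹ ≤ (R ^ 3)⁻¹ := iv_le hR 3
  have i2 : 2 * (R ^ 3)⁻¹ ≤ (R ^ 2)⁻¹ := iv_le hR 2
  have i1 : 2 * (R ^ 2)⁻¹ ≤ (R ^ 1)⁻¹ := iv_le hR 1
  have i0 : 2 * (R ^ 1)⁻¹ ≤ (R ^ 0)⁻¹ := iv_le hR 0
  rw [pow_zero, inv_one] at i0
  have p4 : 0 < (R ^ 4)⁻¹ := by positivity
  have h1 : ∃ j k, (R ^ 4)⁻¹ ≤ |M.d j k| := by
    obtain ⟨j, l, h2 | h2⟩ := hbd
    · by_contra hcon
      push Not at hcon
      have e1 : M.b j l = Bm M J j l - (J j 0 * M.d 0 l + J j 1 * M.d 1 l) := by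
        simp only [Bm, Fin.sum_univ_two]
        ring
      have h3 : ∀ k, |J j k * M.d k l| ≤ (R ^ 3)⁻¹ := fun k => by
        rw [abs_mul]
        refine (mul_le_mul (hJ j k) (hcon k l).le (abs_nonneg _) (by linarith)).trans
          (le_of_eq ?_)
        have hR0 : R ≠ 0 := by linarith
        field_simp
      have h4 := abs_le.1 (h3 0)
      have h5 := abs_le.1 (h3 1)
      have h6 := abs_le.1 (h j l)
      have h7 : |M.b j l| < 1 / 2 := by
        rw [e1, abs_lt]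
        constructor <;> linarith
      linarith
    · exact ⟨j, l, by linarith⟩
  obtain ⟨j, k, h2⟩ := h1
  obtain ⟨i, hi⟩ := Finite.exists_max (fun l : Fin 2 => |M.d l k|)
  exact ⟨i, k, h2.trans (hi j), hi⟩

/-- **(NVL)** The finite lemma. -/
theorem nvLaw : NvLaw := by
  refine ⟨101, 3 / 40, by norm_num, ?_⟩
  intro K hK δ hδ0 hδ1 ε hε0 hεK Ω Λ Γ _ p L P c D J MP ML hp hsz hbd hML hu hS hc
  classical
  have hone := pe_one hp
  -- the size is not near one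
  have hKδ : 2 * δ < K := by
    by_contra hcon
    push Not at hcon
    obtain ⟨b, hb⟩ := Pool.CLO37.pe_pig hp.nonneg (fun ω => 0 < p ω) (by rw [hone]; norm_num)
      (fun (b : Bool) ω => |c (L ω) - (if b then K / 2 else -(K / 2))| ≤ δ) (fun ω hω => by
        have h4 := abs_le.1 (hsz ω hω).1
        by_cases h5 : 0 ≤ c (L ω)
        · refine ⟨true, ?_⟩
          simp only [if_true]
          rw [abs_le]
          constructor <;> linarith
        · refine ⟨false, ?_⟩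
          simp only [Bool.false_eq_true, if_false]
          rw [abs_le]
          constructor <;> linarith)
    have h1 := (Pe_mono hp (fun ω h => h.2) : Pe p (fun ω => 0 < p ω ∧ |c (L ω) -
      (if b then K / 2 else -(K / 2))| ≤ δ) ≤ _).trans (hc (fun _ => if b then K / 2 else -(K / 2)))
    rw [hone, Fintype.card_bool] at hb
    push_cast at hb
    linarith
  obtain ⟨R, hRd⟩ : ∃ R : ℝ, R = K / δ := ⟨_, rfl⟩
  have hR : 2 ≤ R := by
    rw [hRd, le_div_iff₀ hδ0]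
    exact hKδ.le
  have hKR : K ≤ R := by
    rw [hRd, le_div_iff₀ hδ0]
    exact mul_le_of_le_one_right (by linarith) hδ1
  have hδR : (R ^ 1)⁻¹ ≤ δ := by
    rw [pow_one, hRd, inv_div]
    exact div_le_self hδ0.le hK
  have hs1 : (2 * ε) * R ^ 100 ≤ 1 := by
    have h1 : ε * R ^ 101 ≤ 1 := by
      rw [hRd, div_pow, mul_div_assoc', div_le_one (by positivity)]
      exact hεK
    have h2 := mul_le_mul_of_nonneg_left (show 2 * R ^ 100 ≤ R ^ 101 from pw_two hR 100) hε0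
    linarith
  have hs0 : 0 ≤ 2 * ε := by linarith
  have hεR : 2 * ε ≤ R ^ 1 := by
    have h1 := sm_le (n := 0) (m := 0) hR hs0 hs1 (by norm_num)
    rw [pow_zero, mul_one, inv_one] at h1
    rw [pow_one]
    linarith
  -- two points over one line
  have hTw : ∀ ω ω', 0 < p ω → 0 < p ω' → L ω = L ω' →
      Tw R (2 * ε) (c (L ω)) (J (P ω)) (J (P ω')) (MP (P ω)) (MP (P ω')) := by
    intro ω ω' hω hω' eL
    obtain ⟨a1, a2, a3, a4⟩ := hsz ω hω
    obtain ⟨b1, b2, b3, b4⟩ := hsz ω' hω'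
    have cl : ∀ {x y z : ℝ}, |x - z| ≤ ε → |y - z| ≤ ε → |x - y| ≤ 2 * ε * R ^ 1 := by
      intro x y z h1 h2
      have h3 := abs_le.1 h1
      have h4 := abs_le.1 h2
      have h5 : |x - y| ≤ 2 * ε := by
        rw [abs_le]
        constructor <;> linarith
      rw [pow_one]
      exact h5.trans (le_mul_of_one_le_right hs0 (by linarith))
    refine ⟨hR, hs0, a1.trans hKR, fun j l => (a3 j l).trans hKR, fun j l => (b3 j l).trans hKR,
      fun j l => ⟨?_, ?_, ?_⟩, fun j l => ⟨?_, ?_, ?_⟩, fun j l => ⟨?_, ?_, ?_⟩,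
      fun j l => (a4 j l).2.2.2.2, fun j l => (b4 j l).2.2.2.2, fun l => ?_,
      fun j l => ⟨?_, ?_, ?_⟩⟩
    · rw [pow_one]
      exact (a4 j l).1.trans hKR
    · rw [pow_one]
      exact (b4 j l).1.trans hKR
    · exact cl (hML ω hω j l).1 (by rw [eL]; exact (hML ω' hω' j l).1)
    · rw [pow_one]
      linarith [(a4 j l).2.1]
    · rw [pow_one]
      linarith [(b4 j l).2.1]
    · exact cl (hML ω hω j l).2.1 (by rw [eL]; exact (hML ω' hω' j l).2.1)
    · rw [pow_one]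
      linarith [(a4 j l).2.2.1]
    · rw [pow_one]
      linarith [(b4 j l).2.2.1]
    · exact cl (hML ω hω j l).2.2 (by rw [eL]; exact (hML ω' hω' j l).2.2)
    · have h1 := abs_le.1 (hu ω hω l)
      have h2 := hu ω' hω' l
      rw [← eL] at h2
      have h3 := abs_le.1 h2
      have e1 : ∀ X : Fin 2 → Fin 2 → ℝ, lm (ec (c (L ω))) X l =
          ∑ j, ec (c (L ω)) j * X j l := fun X => rfl
      rw [e1, e1, abs_le]
      constructor <;> linarith
    · have h1 := hS ω hω j l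
      rw [pow_one] at hεR ⊢
      linarith
    · have h1 := hS ω' hω' j l
      rw [pow_one] at hεR ⊢
      linarith
    · have h1 := hS ω hω j l
      have h2 := hS ω' hω' j l
      refine cl (z := 0) ?_ ?_
      · rw [sub_zero]
        exact h1
      · rw [sub_zero]
        exact h2
  -- the place of the largest entry
  have hmax : ∀ x : Γ, ∃ q : Fin 2 × Fin 2, ∀ j l, |Bm (MP x) (J x) j l| ≤
      |Bm (MP x) (J x) q.1 q.2| := fun x => by
    obtain ⟨q, hq⟩ := Finite.exists_max (fun q : Fin 2 × Fin 2 => |Bm (MP x) (J x) q.1 q.2|)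
    exact ⟨q, fun j l => hq (j, l)⟩
  choose mx hmx using hmax
  obtain ⟨r, hr⟩ : ∃ r : Γ → ℝ, r = fun x => -(Bm (MP x) (J x) 0 (mx x).2 /
    Bm (MP x) (J x) 1 (mx x).2) := ⟨_, rfl⟩
  have hbad := hc r
  obtain ⟨A, hA⟩ : ∃ A : Ω → Prop, A = fun ω => 0 < p ω ∧ δ < |c (L ω) - r (P ω)| := ⟨_, rfl⟩
  have hPA : 3 / 4 ≤ Pe p A := by
    have h1 := pe_or2 hp (X := fun ω => 0 < p ω) (Y := A)
      (Z := fun ω => |c (L ω) - r (P ω)| ≤ δ) (fun ω hω => by
        rcases le_or_gt |c (L ω) - r (P ω)| δ with h | h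
        · exact Or.inr h
        · left
          rw [hA]
          exact ⟨hω, h⟩)
    rw [hone] at h1
    linarith
  -- the classes
  obtain ⟨Q, hQ⟩ : ∃ Q : (Fin 2 × Fin 2) ⊕ ((Fin 2 × Fin 2) ⊕ Bool) → Γ → Prop,
      Q = fun s x => match s with
      | Sum.inl q => (∀ j l, |Bm (MP x) (J x) j l| ≤ (R ^ 8)⁻¹) ∧
          (R ^ 4)⁻¹ ≤ |(MP x).d q.1 q.2| ∧ ∀ l, |(MP x).d l q.2| ≤ |(MP x).d q.1 q.2|
      | Sum.inr (Sum.inl q) => mx x = q ∧ (R ^ 8)⁻¹ ≤ |Bm (MP x) (J x) q.1 q.2| ∧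
          |dtm (Bm (MP x) (J x))| ≤ (R ^ 30)⁻¹
      | Sum.inr (Sum.inr b) => if b then (R ^ 30)⁻¹ ≤ dtm (Bm (MP x) (J x)) else
          dtm (Bm (MP x) (J x)) ≤ -(R ^ 30)⁻¹ := ⟨_, rfl⟩
  obtain ⟨s, hs⟩ := Pool.CLO37.pe_pig hp.nonneg A (by linarith) (fun s ω => Q s (P ω))
    (fun ω hω => by
      rw [hA] at hω
      obtain ⟨hω, -⟩ := hω
      rw [hQ]
      by_cases h1 : |Bm (MP (P ω)) (J (P ω)) (mx (P ω)).1 (mx (P ω)).2| ≤ (R ^ 8)⁻¹
      · have h2 : ∀ j l, |Bm (MP (P ω)) (J (P ω)) j l| ≤ (R ^ 8)⁻¹ := fun j l =>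
          (hmx _ j l).trans h1
        obtain ⟨i, k, h3, h4⟩ := ex_d hR (fun j l => ((hsz ω hω).2.2.1 j l).trans hKR)
          (hbd ω hω) h2
        exact ⟨Sum.inl (i, k), h2, h3, h4⟩
      · push Not at h1
        by_cases h2 : |dtm (Bm (MP (P ω)) (J (P ω)))| ≤ (R ^ 30)⁻¹
        · exact ⟨Sum.inr (Sum.inl (mx (P ω))), rfl, h1.le, h2⟩
        · push Not at h2
          rcases le_or_gt 0 (dtm (Bm (MP (P ω)) (J (P ω)))) with h3 | h3
          · refine ⟨Sum.inr (Sum.inr true), ?_⟩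
            rw [abs_of_nonneg h3] at h2
            simp only [if_true]
            exact h2.le
          · refine ⟨Sum.inr (Sum.inr false), ?_⟩
            rw [abs_of_neg h3] at h2
            simp only [Bool.false_eq_true, if_false]
            linarith)
  have hcard : (Fintype.card ((Fin 2 × Fin 2) ⊕ ((Fin 2 × Fin 2) ⊕ Bool)) : ℝ) = 10 := by
    rw [Fintype.card_sum, Fintype.card_sum, Fintype.card_prod, Fintype.card_fin,
      Fintype.card_bool]
    norm_num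
  rw [hcard] at hs
  have hm : 3 / 40 ≤ Pe p (fun ω => A ω ∧ Q s (P ω)) := by linarith
  have p4 : 0 < (R ^ 4)⁻¹ := by positivity
  have p8 : 0 < (R ^ 8)⁻¹ := by positivity
  rcases s with q | q | b
  · -- `B` is small
    have hQ1 : ∀ x, Q (Sum.inl q) x → (∀ j l, |Bm (MP x) (J x) j l| ≤ (R ^ 8)⁻¹) ∧
        (R ^ 4)⁻¹ ≤ |(MP x).d q.1 q.2| ∧ ∀ l, |(MP x).d l q.2| ≤ |(MP x).d q.1 q.2| := by
      intro x h
      rw [hQ] at h
      exact h
    refine law_fin (i := q.1) (nP := fun x => if Q (Sum.inl q) x then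
      fun l => (MP x).d l q.2 / (MP x).d q.1 q.2 else Pi.single q.1 1) (fun x => ?_) hδ0.le hm ?_
    · by_cases hx : Q (Sum.inl q) x
      · simp only [if_pos hx]
        obtain ⟨-, h2, h3⟩ := hQ1 x hx
        exact div_piv (v := fun l => (MP x).d l q.2) (i := q.1) (fun e => by
          have e' : (MP x).d q.1 q.2 = 0 := e
          rw [e', abs_zero] at h2
          linarith) h3
      · simp only [if_neg hx]
        exact fin_piv _
    · intro ω ω' hω hω' hE hE' eL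
      obtain ⟨a1, a2, -⟩ := hQ1 _ hE.2
      obtain ⟨b1, b2, -⟩ := hQ1 _ hE'.2
      simp only [if_pos hE.2, if_pos hE'.2]
      have h1 := (hTw ω ω' hω hω' eL).c1 a1 b1 a2 b2 hs1
      exact ⟨fun l => (h1.1 l).trans hδR, fun j => (h1.2 j).trans hδR⟩
  · -- the determinant of `B` is small
    have hQ1 : ∀ x, Q (Sum.inr (Sum.inl q)) x → mx x = q ∧
        (R ^ 8)⁻¹ ≤ |Bm (MP x) (J x) q.1 q.2| ∧ |dtm (Bm (MP x) (J x))| ≤ (R ^ 30)⁻¹ := by
      intro x h
      rw [hQ] at h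
      exact h
    refine law_fin (i := q.2) (nP := fun x => if Q (Sum.inr (Sum.inl q)) x then
      fun l => Bm (MP x) (J x) q.1 l / Bm (MP x) (J x) q.1 q.2 else Pi.single q.2 1)
      (fun x => ?_) hδ0.le hm ?_
    · by_cases hx : Q (Sum.inr (Sum.inl q)) x
      · simp only [if_pos hx]
        obtain ⟨h1, h2, -⟩ := hQ1 x hx
        refine div_piv (v := fun l => Bm (MP x) (J x) q.1 l) (i := q.2) (fun e => ?_) fun l => ?_
        · have e' : Bm (MP x) (J x) q.1 q.2 = 0 := e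
          rw [e', abs_zero] at h2
          linarith
        · have h3 := hmx x q.1 l
          rw [h1] at h3
          exact h3
      · simp only [if_neg hx]
        exact fin_piv _
    · intro ω ω' hω hω' hE hE' eL
      obtain ⟨a1, a2, a3⟩ := hQ1 _ hE.2
      obtain ⟨b1, b2, b3⟩ := hQ1 _ hE'.2
      simp only [if_pos hE.2, if_pos hE'.2]
      have n1 := hE.1
      have n2 := hE'.1
      rw [hA] at n1 n2
      have n3 := n1.2
      have n4 := n2.2
      rw [hr] at n3 n4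
      simp only [a1] at n3
      simp only [b1] at n4
      rw [← eL] at n4
      have h1 := (hTw ω ω' hω hω' eL).c2 a2 b2 a3 b3 hδR n3 n4 hs1
      exact ⟨fun l => (h1.1 l).trans hδR, fun j => (h1.2 j).trans hδR⟩
  · -- the determinant of `B` is large
    refine law_fin (i := 0) (nP := fun _ => Pi.single 0 1) (fun x => fin_piv _) hδ0.le hm ?_
    intro ω ω' hω hω' hE hE' eL
    refine ⟨fun l => ?_, fun j => ?_⟩
    · rw [sub_self, abs_zero]
      exact hδ0.le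
    · have h1 : ((R ^ 30)⁻¹ ≤ dtm (Bm (MP (P ω)) (J (P ω))) ∧
          (R ^ 30)⁻¹ ≤ dtm (Bm (MP (P ω')) (J (P ω')))) ∨
          (dtm (Bm (MP (P ω)) (J (P ω))) ≤ -(R ^ 30)⁻¹ ∧
          dtm (Bm (MP (P ω')) (J (P ω'))) ≤ -(R ^ 30)⁻¹) := by
        have h2 := hE.2
        have h3 := hE'.2
        rw [hQ] at h2 h3
        cases b
        · simp only [Bool.false_eq_true, if_false] at h2 h3
          exact Or.inr ⟨h2, h3⟩
        · simp only [if_true] at h2 h3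
          exact Or.inl ⟨h2, h3⟩
      have h2 := (hTw ω ω' hω hω' eL).c3 h1 hs1 j 0
      have e1 : ∀ y : Γ, ∑ l, J y j l * (Pi.single 0 (1 : ℝ) : Fin 2 → ℝ) l = J y j 0 := by
        intro y
        rw [Fin.sum_univ_two, Pi.single_eq_same,
          Pi.single_eq_of_ne (show (1 : Fin 2) ≠ 0 by decide)]
        ring
      rw [e1, e1]
      exact h2.trans hδR

end Pool.NV91
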