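import Pool.Agent.H48.NV.S

/-!
# The finite lemma: two points over one line

`Tw`: two matrices `J`, `J'` with isotropic graphs for nearly the same Hessian, with nearly the same
own velocity. `tw_x`, `tw_Jx`: the vector `x = Bᵀ e` and its slope `J x` are nearly the same, where
`B = b + J d`. `tw_J`: if the two determinants of `B` are large and of one sign, then `J` and `J'` are
nearly the same.
-/

set_option autoImplicit false

namespace Pool.NV91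

open Finset Real
open Pool.NV48

/-! ### Vectors and matrices -/

/-- `vᵀ X`. -/
def lm (v : Fin 2 → ℝ) (X : Fin 2 → Fin 2 → ℝ) (l : Fin 2) : ℝ := ∑ j, v j * X j l

/-- `X v`. -/
def rm (X : Fin 2 → Fin 2 → ℝ) (v : Fin 2 → ℝ) (j : Fin 2) : ℝ := ∑ l, X j l * v l

/-- `v · w`. -/
def dt (v w : Fin 2 → ℝ) : ℝ := ∑ l, v l * w l

/-- `(-c, 1)`. -/
def nc (c : ℝ) : Fin 2 → ℝ := ![-c, 1]

/-- `b + J d`. -/
def Bm (M : Hs) (J : Fin 2 → Fin 2 → ℝ) (j l : Fin 2) : ℝ := M.b j l + ∑ l', J j l' * M.d l' l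

/-- The determinant. -/
def dtm (X : Fin 2 → Fin 2 → ℝ) : ℝ := X 0 0 * X 1 1 - X 0 1 * X 1 0

variable {c : ℝ} {J J' : Fin 2 → Fin 2 → ℝ} {M M' : Hs}

theorem id_x (l : Fin 2) : lm (ec c) (Bm M J) l = lm (ec c) M.b l + lm (lm (ec c) J) M.d l := by
  rcases Fin.exists_fin_two.1 ⟨l, rfl⟩ with h | h <;>
  · rw [h]
    simp only [lm, Bm, ec, Fin.sum_univ_two, Matrix.cons_val_zero, Matrix.cons_val_one]
    ring

theorem id_gx : dt (lm (nc c) J) (lm (ec c) (Bm M J)) =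
    dt (ec c) (rm (M.S J) (nc c)) - dt (ec c) (rm M.a (nc c)) - dt (lm (ec c) J) (lm (nc c) M.b) := by
  simp only [lm, rm, dt, Bm, ec, nc, Hs.S, Fin.sum_univ_two, Matrix.cons_val_zero,
    Matrix.cons_val_one]
  ring

theorem id_v (v : Fin 2 → ℝ) (j : Fin 2) :
    v j * (1 + c ^ 2) = ec c j * dt (ec c) v + nc c j * dt (nc c) v := by
  rcases Fin.exists_fin_two.1 ⟨j, rfl⟩ with h | h <;>
  · rw [h]
    simp only [dt, ec, nc, Fin.sum_univ_two, Matrix.cons_val_zero, Matrix.cons_val_one]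
    ring

theorem id_e (X : Fin 2 → Fin 2 → ℝ) (v x : Fin 2 → ℝ) : dt v (rm X x) = dt (lm v X) x := by
  simp only [lm, rm, dt, Fin.sum_univ_two]
  ring

theorem id_q (hd : ∀ j l, M.d j l = M.d l j) (hd' : ∀ j l, M'.d j l = M'.d l j) :
    dt (fun l => lm (nc c) J l - lm (nc c) J' l)
        (fun l => lm (nc c) (Bm M J) l + lm (nc c) (Bm M' J') l) =
      dt (nc c) (rm (fun j l => M.S J j l - M'.S J' j l) (nc c)) -
        dt (nc c) (rm (fun j l => M.a j l - M'.a j l) (nc c)) -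
        dt (fun l => lm (nc c) J l + lm (nc c) J' l)
          (lm (nc c) (fun j l => M.b j l - M'.b j l)) -
        dt (lm (nc c) J) (rm (fun j l => M.d j l - M'.d j l) (lm (nc c) J')) := by
  have h1 := hd 1 0
  have h2 := hd' 1 0
  simp only [lm, rm, dt, Bm, nc, Hs.S, Fin.sum_univ_two, Matrix.cons_val_zero,
    Matrix.cons_val_one, h1, h2]
  ring

theorem id_det : lm (ec c) (Bm M J) 0 * lm (nc c) (Bm M J) 1 -
    lm (ec c) (Bm M J) 1 * lm (nc c) (Bm M J) 0 = (1 + c ^ 2) * dtm (Bm M J) := by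
  simp only [lm, dtm, ec, nc, Fin.sum_univ_two, Matrix.cons_val_zero, Matrix.cons_val_one]
  ring

/-! ### Sizes -/

/-- `|x| ≤ s R ^ n`. -/
def Bd (R s : ℝ) (n : ℕ) (x : ℝ) : Prop := |x| ≤ s * R ^ n

/-- `x, x'` are at most `R ^ n`, the difference is at most `s R ^ n`. -/
structure Pr (R s : ℝ) (n : ℕ) (x x' : ℝ) : Prop where
  l : |x| ≤ R ^ n
  r : |x'| ≤ R ^ n
  d : |x - x'| ≤ s * R ^ n

variable {R s : ℝ} {n m : ℕ} {x x' y y' : ℝ}

theorem Bd.mono (h : Bd R s n x) (hR : 2 ≤ R) (hs : 0 ≤ s) (hnm : n ≤ m) : Bd R s m x :=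
  h.trans (mul_le_mul_of_nonneg_left (pow_le_pow_right₀ (by linarith) hnm) hs)

theorem Pr.mono (h : Pr R s n x x') (hR : 2 ≤ R) (hs : 0 ≤ s) (hnm : n ≤ m) : Pr R s m x x' :=
  have h1 : R ^ n ≤ R ^ m := pow_le_pow_right₀ (by linarith) hnm
  ⟨h.l.trans h1, h.r.trans h1, h.d.trans (mul_le_mul_of_nonneg_left h1 hs)⟩

theorem pw_two (hR : 2 ≤ R) (n : ℕ) : 2 * R ^ n ≤ R ^ (n + 1) := by
  rw [pow_succ, mul_comm]
  exact mul_le_mul_of_nonneg_left hR (by positivity)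

theorem Bd.add (h : Bd R s n x) (h' : Bd R s n y) (hR : 2 ≤ R) (hs : 0 ≤ s) :
    Bd R s (n + 1) (x + y) := by
  have h1 := mul_le_mul_of_nonneg_left (pw_two hR n) hs
  have h2 := abs_add_le x y
  unfold Bd at h h' ⊢
  linarith

theorem Bd.sub (h : Bd R s n x) (h' : Bd R s n y) (hR : 2 ≤ R) (hs : 0 ≤ s) :
    Bd R s (n + 1) (x - y) := by
  rw [sub_eq_add_neg]
  refine h.add ?_ hR hs
  unfold Bd
  rw [abs_neg]
  exact h'

theorem Bd.mul (h : Bd R s n x) (h' : |y| ≤ R ^ m) (hR : 2 ≤ R) (hs : 0 ≤ s) :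
    Bd R s (n + m) (x * y) := by
  unfold Bd
  rw [abs_mul, pow_add, ← mul_assoc]
  exact mul_le_mul h h' (abs_nonneg _) (by positivity)

theorem Bd.mul' (h' : |y| ≤ R ^ m) (h : Bd R s n x) (hR : 2 ≤ R) (hs : 0 ≤ s) :
    Bd R s (n + m) (y * x) := by
  rw [mul_comm]
  exact h.mul h' hR hs

theorem Pr.const (h : |x| ≤ R ^ n) (hR : 2 ≤ R) (hs : 0 ≤ s) : Pr R s n x x := by
  refine ⟨h, h, ?_⟩
  rw [sub_self, abs_zero]
  positivity

theorem Pr.symm (h : Pr R s n x x') : Pr R s n x' x := ⟨h.r, h.l, by rw [abs_sub_comm]; exact h.d⟩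

theorem Pr.add (h : Pr R s n x x') (h' : Pr R s n y y') (hR : 2 ≤ R) (hs : 0 ≤ s) :
    Pr R s (n + 1) (x + y) (x' + y') := by
  have h0 := pw_two hR n
  have h1 := mul_le_mul_of_nonneg_left h0 hs
  have h2 := abs_add_le x y
  have h3 := abs_add_le x' y'
  have h4 := abs_add_le (x - x') (y - y')
  have a1 := h.l
  have a2 := h.r
  have a3 := h.d
  have b1 := h'.l
  have b2 := h'.r
  have b3 := h'.d
  refine ⟨by linarith, by linarith, ?_⟩
  rw [show x + y - (x' + y') = x - x' + (y - y') by ring]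
  linarith

theorem Pr.neg (h : Pr R s n x x') : Pr R s n (-x) (-x') := by
  refine ⟨by rw [abs_neg]; exact h.l, by rw [abs_neg]; exact h.r, ?_⟩
  rw [show -x - -x' = -(x - x') by ring, abs_neg]
  exact h.d

theorem Pr.sub (h : Pr R s n x x') (h' : Pr R s n y y') (hR : 2 ≤ R) (hs : 0 ≤ s) :
    Pr R s (n + 1) (x - y) (x' - y') := by
  rw [sub_eq_add_neg, sub_eq_add_neg]
  exact h.add h'.neg hR hs

theorem Pr.mul (h : Pr R s n x x') (h' : Pr R s m y y') (hR : 2 ≤ R) (hs : 0 ≤ s) :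
    Pr R s (n + m + 1) (x * y) (x' * y') := by
  have h0 : R ^ (n + m) ≤ R ^ (n + m + 1) := pow_le_pow_right₀ (by linarith) (by omega)
  refine ⟨?_, ?_, ?_⟩
  · rw [abs_mul]
    refine (mul_le_mul h.l h'.l (abs_nonneg _) (by positivity)).trans ?_
    rw [← pow_add]
    exact h0
  · rw [abs_mul]
    refine (mul_le_mul h.r h'.r (abs_nonneg _) (by positivity)).trans ?_
    rw [← pow_add]
    exact h0
  · have h1 : Bd R s (n + m) ((x - x') * y) := Bd.mul h.d h'.l hR hs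
    have h2 : Bd R s (m + n) (x' * (y - y')) := Bd.mul' h.r h'.d hR hs
    rw [add_comm m n] at h2
    have h3 := h1.add h2 hR hs
    rw [show (x - x') * y + x' * (y - y') = x * y - x' * y' by ring] at h3
    exact h3

/-! ### Two points over one line -/

/-- Two matrices over one line. -/
structure Tw (R s c : ℝ) (J J' : Fin 2 → Fin 2 → ℝ) (M M' : Hs) : Prop where
  R2 : 2 ≤ R
  s0 : 0 ≤ s
  hc : |c| ≤ R
  j1 : ∀ j l, |J j l| ≤ R
  j2 : ∀ j l, |J' j l| ≤ R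
  a : ∀ j l, Pr R s 1 (M.a j l) (M'.a j l)
  b : ∀ j l, Pr R s 1 (M.b j l) (M'.b j l)
  d : ∀ j l, Pr R s 1 (M.d j l) (M'.d j l)
  sd : ∀ j l, M.d j l = M.d l j
  sd' : ∀ j l, M'.d j l = M'.d l j
  u : ∀ l, |lm (ec c) J l - lm (ec c) J' l| ≤ s
  s1 : ∀ j j', Pr R s 1 (M.S J j j') (M'.S J' j j')

namespace Tw

theorem symm (T : Tw R s c J J' M M') : Tw R s c J' J M' M :=
  ⟨T.R2, T.s0, T.hc, T.j2, T.j1, fun j l => (T.a j l).symm, fun j l => (T.b j l).symm,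
    fun j l => (T.d j l).symm, T.sd', T.sd, fun l => by rw [abs_sub_comm]; exact T.u l,
    fun j l => (T.s1 j l).symm⟩

theorem e1 (T : Tw R s c J J' M M') (j : Fin 2) : |ec c j| ≤ R := by
  rcases Fin.exists_fin_two.1 ⟨j, rfl⟩ with h | h
  · rw [h]
    simp only [ec, Matrix.cons_val_zero, abs_one]
    linarith [T.R2]
  · rw [h]
    simp only [ec, Matrix.cons_val_one]
    exact T.hc

theorem n1 (T : Tw R s c J J' M M') (j : Fin 2) : |nc c j| ≤ R := by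
  rcases Fin.exists_fin_two.1 ⟨j, rfl⟩ with h | h
  · rw [h]
    simp only [nc, Matrix.cons_val_zero, abs_neg]
    exact T.hc
  · rw [h]
    simp only [nc, Matrix.cons_val_one, Matrix.cons_val_zero, abs_one]
    linarith [T.R2]

end Tw

theorem lm_le {v : Fin 2 → ℝ} {X : Fin 2 → Fin 2 → ℝ} (hR : 2 ≤ R) (hv : ∀ j, |v j| ≤ R ^ n)
    (hX : ∀ j l, |X j l| ≤ R ^ m) (l : Fin 2) : |lm v X l| ≤ R ^ (n + m + 1) := by
  unfold lm
  rw [Fin.sum_univ_two]
  refine (abs_add_le _ _).trans ?_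
  rw [abs_mul, abs_mul]
  have h1 := mul_le_mul (hv 0) (hX 0 l) (abs_nonneg _) (by positivity)
  have h2 := mul_le_mul (hv 1) (hX 1 l) (abs_nonneg _) (by positivity)
  have h3 := pw_two hR (n + m)
  rw [pow_add R n m] at h3
  linarith

theorem lm_pr {v v' : Fin 2 → ℝ} {X X' : Fin 2 → Fin 2 → ℝ} (hR : 2 ≤ R) (hs : 0 ≤ s)
    (hv : ∀ j, Pr R s n (v j) (v' j)) (hX : ∀ j l, Pr R s m (X j l) (X' j l)) (l : Fin 2) :
    Pr R s (n + m + 2) (lm v X l) (lm v' X' l) := by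
  unfold lm
  rw [Fin.sum_univ_two, Fin.sum_univ_two]
  exact ((hv 0).mul (hX 0 l) hR hs).add ((hv 1).mul (hX 1 l) hR hs) hR hs

theorem rm_pr {v v' : Fin 2 → ℝ} {X X' : Fin 2 → Fin 2 → ℝ} (hR : 2 ≤ R) (hs : 0 ≤ s)
    (hv : ∀ j, Pr R s n (v j) (v' j)) (hX : ∀ j l, Pr R s m (X j l) (X' j l)) (j : Fin 2) :
    Pr R s (m + n + 2) (rm X v j) (rm X' v' j) := by
  unfold rm
  rw [Fin.sum_univ_two, Fin.sum_univ_two]
  exact ((hX j 0).mul (hv 0) hR hs).add ((hX j 1).mul (hv 1) hR hs) hR hs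

theorem dt_pr {v v' w w' : Fin 2 → ℝ} (hR : 2 ≤ R) (hs : 0 ≤ s)
    (hv : ∀ j, Pr R s n (v j) (v' j)) (hw : ∀ j, Pr R s m (w j) (w' j)) :
    Pr R s (n + m + 2) (dt v w) (dt v' w') := by
  unfold dt
  rw [Fin.sum_univ_two, Fin.sum_univ_two]
  exact ((hv 0).mul (hw 0) hR hs).add ((hv 1).mul (hw 1) hR hs) hR hs

namespace Tw

variable (T : Tw R s c J J' M M')

include T

theorem u1 (l : Fin 2) : Pr R s 3 (lm (ec c) J l) (lm (ec c) J' l) := by
  have hR := T.R2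
  have h0 : ∀ j, |ec c j| ≤ R ^ 1 := fun j => by rw [pow_one]; exact T.e1 j
  refine ⟨lm_le hR h0 (fun j l => by rw [pow_one]; exact T.j1 j l) l,
    lm_le hR h0 (fun j l => by rw [pow_one]; exact T.j2 j l) l, (T.u l).trans ?_⟩
  exact le_mul_of_one_le_right T.s0 (one_le_pow₀ (by linarith))

theorem ep (j : Fin 2) : Pr R s 1 (ec c j) (ec c j) :=
  Pr.const (by rw [pow_one]; exact T.e1 j) T.R2 T.s0

theorem np (j : Fin 2) : Pr R s 1 (nc c j) (nc c j) :=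
  Pr.const (by rw [pow_one]; exact T.n1 j) T.R2 T.s0

/-- `x = Bᵀ e` is nearly the same. -/
theorem x1 (l : Fin 2) : Pr R s 7 (lm (ec c) (Bm M J) l) (lm (ec c) (Bm M' J') l) := by
  rw [id_x, id_x]
  exact ((lm_pr T.R2 T.s0 T.ep T.b l).mono T.R2 T.s0 (by norm_num) : Pr R s 6 _ _).add
    (lm_pr T.R2 T.s0 T.u1 T.d l) T.R2 T.s0

/-- `n · J x` is nearly the same. -/
theorem gx : Pr R s 10 (dt (lm (nc c) J) (lm (ec c) (Bm M J)))
    (dt (lm (nc c) J') (lm (ec c) (Bm M' J'))) := by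
  have hR := T.R2
  have hs := T.s0
  rw [id_gx, id_gx]
  have h1 := dt_pr hR hs T.ep (rm_pr hR hs T.np T.s1)
  have h2 := dt_pr hR hs T.ep (rm_pr hR hs T.np T.a)
  have h3 := dt_pr hR hs T.u1 (lm_pr hR hs T.np T.b)
  exact (((h1.mono hR hs (by norm_num) : Pr R s 8 _ _).sub
    (h2.mono hR hs (by norm_num) : Pr R s 8 _ _) hR hs)).sub
    (h3.mono hR hs (by norm_num) : Pr R s 9 _ _) hR hs

/-- `J x` is nearly the same. -/
theorem Jx (j : Fin 2) : Pr R s 16 (rm J (lm (ec c) (Bm M J)) j)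
    (rm J' (lm (ec c) (Bm M' J')) j) := by
  have hR := T.R2
  have hs := T.s0
  have h0 : (1 : ℝ) ≤ 1 + c ^ 2 := by nlinarith
  have h1 : ∀ v : Fin 2 → ℝ, v j = (1 + c ^ 2)⁻¹ *
      (ec c j * dt (ec c) v + nc c j * dt (nc c) v) := fun v => by
    rw [← id_v, mul_comm (v j), ← mul_assoc, inv_mul_cancel₀ (by linarith), one_mul]
  rw [h1 (rm J (lm (ec c) (Bm M J))), h1 (rm J' (lm (ec c) (Bm M' J'))), id_e, id_e, id_e, id_e]
  have h2 : Pr R s 0 ((1 + c ^ 2)⁻¹) ((1 + c ^ 2)⁻¹) := by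
    refine Pr.const ?_ hR hs
    rw [pow_zero, abs_of_nonneg (by positivity)]
    exact inv_le_one_of_one_le₀ h0
  have h3 := (T.ep j).mul (dt_pr hR hs T.u1 T.x1) hR hs
  have h4 := (T.np j).mul T.gx hR hs
  exact (h2.mul ((h3.mono hR hs (by norm_num) : Pr R s 14 _ _).add
    (h4.mono hR hs (by norm_num) : Pr R s 14 _ _) hR hs) hR hs)

end Tw

end Pool.NV91
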