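import Pool.Agent.H91.NV.Law0

/-!
# The finite lemma: a large determinant

`Tw.Jd`: two points over one line whose matrices `B` have large determinants of one sign have nearly
the same slopes.
-/

set_option autoImplicit false

namespace Pool.NV91

open Finset Real
open Pool.NV48

variable {c : ℝ} {J J' : Fin 2 → Fin 2 → ℝ} {M M' : Hs} {R s : ℝ} {n m : ℕ} {x x' y y' : ℝ}

theorem lm_bd {v : Fin 2 → ℝ} {X : Fin 2 → Fin 2 → ℝ} (hR : 2 ≤ R) (hs : 0 ≤ s)
    (hv : ∀ j, |v j| ≤ R ^ n) (hX : ∀ j l, Bd R s m (X j l)) (l : Fin 2) :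
    Bd R s (m + n + 1) (lm v X l) := by
  unfold lm
  rw [Fin.sum_univ_two]
  exact (Bd.mul' (hv 0) (hX 0 l) hR hs).add (Bd.mul' (hv 1) (hX 1 l) hR hs) hR hs

theorem rm_bd {v : Fin 2 → ℝ} {X : Fin 2 → Fin 2 → ℝ} (hR : 2 ≤ R) (hs : 0 ≤ s)
    (hv : ∀ j, |v j| ≤ R ^ n) (hX : ∀ j l, Bd R s m (X j l)) (j : Fin 2) :
    Bd R s (m + n + 1) (rm X v j) := by
  unfold rm
  rw [Fin.sum_univ_two]
  exact ((hX j 0).mul (hv 0) hR hs).add ((hX j 1).mul (hv 1) hR hs) hR hs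

theorem dt_bd {v w : Fin 2 → ℝ} (hR : 2 ≤ R) (hs : 0 ≤ s) (hv : ∀ j, |v j| ≤ R ^ n)
    (hw : ∀ j, Bd R s m (w j)) : Bd R s (m + n + 1) (dt v w) := by
  unfold dt
  rw [Fin.sum_univ_two]
  exact (Bd.mul' (hv 0) (hw 0) hR hs).add (Bd.mul' (hv 1) (hw 1) hR hs) hR hs

/-- A size of `B`. -/
theorem Bm_le (hR : 2 ≤ R) (hJ : ∀ j l, |J j l| ≤ R) (hb : ∀ j l, |M.b j l| ≤ R ^ 1)
    (hd : ∀ j l, |M.d j l| ≤ R ^ 1) (j l : Fin 2) : |Bm M J j l| ≤ R ^ 4 := by
  have h0 : Bm M J j l = M.b j l + lm (fun l' => J j l') M.d l := rfl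
  rw [h0]
  refine (abs_add_le _ _).trans ?_
  have h1 := lm_le (X := M.d) hR (v := fun l' => J j l') (n := 1) (m := 1)
    (fun l' => by rw [pow_one]; exact hJ j l') hd l
  have h2 := hb j l
  have h3 : R ^ 1 ≤ R ^ (1 + 1 + 1) := pow_le_pow_right₀ (by linarith) (by norm_num)
  have h4 := pw_two hR (1 + 1 + 1)
  have h5 : R ^ (1 + 1 + 1 + 1) = R ^ 4 := by norm_num
  linarith

namespace Tw

variable (T : Tw R s c J J' M M')

include T

theorem g1 (l : Fin 2) : |lm (nc c) J l| ≤ R ^ 3 :=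
  lm_le T.R2 (n := 1) (m := 1) (fun j => by rw [pow_one]; exact T.n1 j)
    (fun j l => by rw [pow_one]; exact T.j1 j l) l

theorem w1 (l : Fin 2) : |lm (nc c) (Bm M J) l| ≤ R ^ 6 :=
  lm_le T.R2 (n := 1) (m := 4) (fun j => by rw [pow_one]; exact T.n1 j)
    (Bm_le T.R2 T.j1 (fun j l => (T.b j l).l) fun j l => (T.d j l).l) l

/-- `q · x` is small. -/
theorem qx : Bd R s 12 (dt (fun l => lm (nc c) J l - lm (nc c) J' l) (lm (ec c) (Bm M J))) := by
  have hR := T.R2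
  have hs := T.s0
  have h1 : Bd R s 10 (dt (lm (nc c) J) (lm (ec c) (Bm M J)) -
      dt (lm (nc c) J') (lm (ec c) (Bm M' J'))) := T.gx.d
  have h2 : Bd R s (7 + 3 + 1) (dt (lm (nc c) J')
      (fun l => lm (ec c) (Bm M J) l - lm (ec c) (Bm M' J') l)) :=
    dt_bd hR hs T.symm.g1 fun l => (T.x1 l).d
  have h3 := (h1.mono hR hs (by norm_num) : Bd R s 11 _).sub
    (h2.mono hR hs (by norm_num) : Bd R s 11 _) hR hs
  have e1 : dt (fun l => lm (nc c) J l - lm (nc c) J' l) (lm (ec c) (Bm M J)) =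
      dt (lm (nc c) J) (lm (ec c) (Bm M J)) - dt (lm (nc c) J') (lm (ec c) (Bm M' J')) -
        dt (lm (nc c) J') (fun l => lm (ec c) (Bm M J) l - lm (ec c) (Bm M' J') l) := by
    simp only [dt, Fin.sum_univ_two]
    ring
  rw [e1]
  exact h3

/-- `q · z` is small. -/
theorem qz : Bd R s 12 (dt (fun l => lm (nc c) J l - lm (nc c) J' l)
    (fun l => lm (nc c) (Bm M J) l + lm (nc c) (Bm M' J') l)) := by
  have hR := T.R2
  have hs := T.s0
  have hn : ∀ j, |nc c j| ≤ R ^ 1 := fun j => by rw [pow_one]; exact T.n1 j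
  rw [id_q T.sd T.sd']
  have h1 := dt_bd hR hs hn (rm_bd hR hs hn (X := fun j l => M.S J j l - M'.S J' j l)
    fun j l => (T.s1 j l).d)
  have h2 := dt_bd hR hs hn (rm_bd hR hs hn (X := fun j l => M.a j l - M'.a j l)
    fun j l => (T.a j l).d)
  have h3 : Bd R s (3 + 4 + 1) (dt (fun l => lm (nc c) J l + lm (nc c) J' l)
      (lm (nc c) (fun j l => M.b j l - M'.b j l))) :=
    dt_bd (n := 4) (m := 3) hR hs (fun l => by
      have a1 := T.g1 l
      have a2 := T.symm.g1 l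
      have a3 := abs_add_le (lm (nc c) J l) (lm (nc c) J' l)
      have a4 : 2 * R ^ 3 ≤ R ^ 4 := pw_two hR 3
      linarith) (lm_bd hR hs hn (X := fun j l => M.b j l - M'.b j l) fun j l => (T.b j l).d)
  have h4 := dt_bd hR hs T.g1 (rm_bd hR hs T.symm.g1 (X := fun j l => M.d j l - M'.d j l)
    fun j l => (T.d j l).d)
  exact (((h1.mono hR hs (by norm_num) : Bd R s 9 _).sub
    (h2.mono hR hs (by norm_num) : Bd R s 9 _) hR hs).sub
    (h3.mono hR hs (by norm_num) : Bd R s 10 _) hR hs).sub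
    (h4.mono hR hs (by norm_num) : Bd R s 11 _) hR hs

/-- The determinant of `x` and `z` is nearly the sum of the two determinants. -/
theorem dxz : Bd R s 14 (lm (ec c) (Bm M J) 0 * (lm (nc c) (Bm M J) 1 + lm (nc c) (Bm M' J') 1) -
    lm (ec c) (Bm M J) 1 * (lm (nc c) (Bm M J) 0 + lm (nc c) (Bm M' J') 0) -
    (1 + c ^ 2) * (dtm (Bm M J) + dtm (Bm M' J'))) := by
  have hR := T.R2
  have hs := T.s0
  have h1 : Bd R s (7 + 6) ((lm (ec c) (Bm M J) 0 - lm (ec c) (Bm M' J') 0) *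
      lm (nc c) (Bm M' J') 1) := Bd.mul (T.x1 0).d (T.symm.w1 1) hR hs
  have h2 : Bd R s (7 + 6) ((lm (ec c) (Bm M J) 1 - lm (ec c) (Bm M' J') 1) *
      lm (nc c) (Bm M' J') 0) := Bd.mul (T.x1 1).d (T.symm.w1 0) hR hs
  have e1 := id_det (c := c) (M := M) (J := J)
  have e2 := id_det (c := c) (M := M') (J := J')
  have e3 : lm (ec c) (Bm M J) 0 * (lm (nc c) (Bm M J) 1 + lm (nc c) (Bm M' J') 1) -
      lm (ec c) (Bm M J) 1 * (lm (nc c) (Bm M J) 0 + lm (nc c) (Bm M' J') 0) -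
      (1 + c ^ 2) * (dtm (Bm M J) + dtm (Bm M' J')) =
      (lm (ec c) (Bm M J) 0 - lm (ec c) (Bm M' J') 0) * lm (nc c) (Bm M' J') 1 -
      (lm (ec c) (Bm M J) 1 - lm (ec c) (Bm M' J') 1) * lm (nc c) (Bm M' J') 0 := by
    linear_combination e1 + e2
  rw [e3]
  exact h1.sub h2 hR hs

/-- **The slopes of two points over one line.** -/
theorem Jd {σ : ℝ} (h0 : 0 < σ) (h1 : σ ≤ 1) (hsσ : s * R ^ 14 ≤ σ)
    (h : (σ ≤ dtm (Bm M J) ∧ σ ≤ dtm (Bm M' J')) ∨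
      (dtm (Bm M J) ≤ -σ ∧ dtm (Bm M' J') ≤ -σ)) (j l : Fin 2) :
    |J j l - J' j l| ≤ s * R ^ 22 / σ := by
  have hR := T.R2
  have hs := T.s0
  obtain ⟨q, hq⟩ : ∃ q : Fin 2 → ℝ, q = fun l => lm (nc c) J l - lm (nc c) J' l := ⟨_, rfl⟩
  obtain ⟨z, hz⟩ : ∃ z : Fin 2 → ℝ, z = fun l => lm (nc c) (Bm M J) l +
    lm (nc c) (Bm M' J') l := ⟨_, rfl⟩
  obtain ⟨x, hx⟩ : ∃ x : Fin 2 → ℝ, x = lm (ec c) (Bm M J) := ⟨_, rfl⟩
  have hqx := T.qx
  have hqz := T.qz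
  rw [← hq, ← hx] at hqx
  rw [← hq, ← hz] at hqz
  have hx1 : ∀ l, |x l| ≤ R ^ 7 := fun l => by
    rw [hx]
    exact (T.x1 l).l
  have hz1 : ∀ l, |z l| ≤ R ^ 7 := fun l => by
    rw [hz]
    refine (abs_add_le _ _).trans ?_
    have a1 := T.w1 l
    have a2 := T.symm.w1 l
    have a3 : 2 * R ^ 6 ≤ R ^ 7 := pw_two hR 6
    linarith
  have hdet : σ ≤ |x 0 * z 1 - x 1 * z 0| := by
    have h2 := T.dxz
    have e1 : x 0 * z 1 - x 1 * z 0 = lm (ec c) (Bm M J) 0 *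
        (lm (nc c) (Bm M J) 1 + lm (nc c) (Bm M' J') 1) - lm (ec c) (Bm M J) 1 *
        (lm (nc c) (Bm M J) 0 + lm (nc c) (Bm M' J') 0) := by rw [hx, hz]
    rw [← e1] at h2
    obtain ⟨D, hD⟩ : ∃ D : ℝ, D = dtm (Bm M J) + dtm (Bm M' J') := ⟨_, rfl⟩
    rw [← hD] at h2
    have h3 : |x 0 * z 1 - x 1 * z 0 - (1 + c ^ 2) * D| ≤ σ := le_trans h2 hsσ
    have h4 : 2 * σ ≤ |(1 + c ^ 2) * D| := by
      rw [abs_mul, abs_of_nonneg (by positivity)]
      have h5 : 2 * σ ≤ |D| := by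
        rcases h with ⟨a1, a2⟩ | ⟨a1, a2⟩
        · refine le_trans ?_ (le_abs_self D)
          linarith
        · refine le_trans ?_ (neg_le_abs D)
          linarith
      have h6 : 1 * |D| ≤ (1 + c ^ 2) * |D| :=
        mul_le_mul_of_nonneg_right (by nlinarith) (abs_nonneg D)
      linarith
    have h5 := abs_sub_abs_le_abs_sub ((1 + c ^ 2) * D) (x 0 * z 1 - x 1 * z 0)
    rw [abs_sub_comm] at h3
    linarith
  have hq1 : ∀ l, |q l| ≤ s * R ^ 20 / σ := by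
    intro l
    rw [le_div_iff₀ h0]
    refine (mul_le_mul_of_nonneg_left hdet (abs_nonneg _)).trans ?_
    rw [← abs_mul]
    rcases Fin.exists_fin_two.1 ⟨l, rfl⟩ with h | h
    · have e1 : q l * (x 0 * z 1 - x 1 * z 0) = dt q x * z 1 - dt q z * x 1 := by
        rw [h]
        simp only [dt, Fin.sum_univ_two]
        ring
      rw [e1]
      have a1 := Bd.mul hqx (hz1 1) hR hs
      have a2 := Bd.mul hqz (hx1 1) hR hs
      exact a1.sub a2 hR hs
    · have e1 : q l * (x 0 * z 1 - x 1 * z 0) = dt q z * x 0 - dt q x * z 0 := by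
        rw [h]
        simp only [dt, Fin.sum_univ_two]
        ring
      rw [e1]
      have a1 := Bd.mul hqx (hz1 0) hR hs
      have a2 := Bd.mul hqz (hx1 0) hR hs
      exact a2.sub a1 hR hs
  have e1 := id_v (c := c) (fun j => J j l - J' j l) j
  have e2 : dt (ec c) (fun j => J j l - J' j l) = lm (ec c) J l - lm (ec c) J' l := by
    simp only [dt, lm, Fin.sum_univ_two]
    ring
  have e3 : dt (nc c) (fun j => J j l - J' j l) = q l := by
    rw [hq]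
    simp only [dt, lm, Fin.sum_univ_two]
    ring
  rw [e2, e3] at e1
  have h2 : |J j l - J' j l| ≤ |(J j l - J' j l) * (1 + c ^ 2)| := by
    rw [abs_mul]
    refine le_mul_of_one_le_right (abs_nonneg _) ?_
    rw [abs_of_nonneg (by positivity)]
    nlinarith
  refine h2.trans ?_
  have e4 : (J j l - J' j l) * (1 + c ^ 2) = (fun j => J j l - J' j l) j * (1 + c ^ 2) := rfl
  rw [e4, e1]
  refine (abs_add_le _ _).trans ?_
  rw [abs_mul, abs_mul]
  have h3 : s ≤ s * R ^ 20 / σ := by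
    rw [le_div_iff₀ h0]
    have a1 : s * σ ≤ s * 1 := mul_le_mul_of_nonneg_left h1 hs
    have a2 : s * 1 ≤ s * R ^ 20 := mul_le_mul_of_nonneg_left (one_le_pow₀ (by linarith)) hs
    linarith
  have h4 := mul_le_mul (T.e1 j) ((T.u l).trans h3) (abs_nonneg _) (by linarith)
  have h5 := mul_le_mul (T.n1 j) (hq1 l) (abs_nonneg _) (by linarith)
  have h6 : R * (s * R ^ 20 / σ) = s * R ^ 21 / σ := by
    rw [mul_div_assoc', show R * (s * R ^ 20) = s * R ^ 21 by ring]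
  rw [h6] at h4 h5
  have h7 : 2 * (s * R ^ 21 / σ) ≤ s * R ^ 22 / σ := by
    rw [mul_div_assoc']
    refine div_le_div_of_nonneg_right ?_ h0.le
    have h8 : 2 * R ^ 21 ≤ R ^ 22 := pw_two hR 21
    have := mul_le_mul_of_nonneg_left h8 hs
    linarith
  linarith

end Tw

end Pool.NV91
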