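import Pool.Agent.H91.NV.Law1

/-!
# The finite lemma: the three cases

`Tw.c1`: the matrix `B` is small; `Tw.c2`: its determinant is small; `Tw.c3`: its determinant is large.
-/

set_option autoImplicit false

namespace Pool.NV91

open Finset Real
open Pool.NV48

variable {c δ : ℝ} {J J' : Fin 2 → Fin 2 → ℝ} {M M' : Hs} {R s : ℝ} {n m : ℕ} {x x' y y' : ℝ}

/-- A quotient. -/
theorem Pr.div {σ : ℝ} (h : Pr R s n x x') (h' : Pr R s n y y') (hR : 2 ≤ R) (hs : 0 ≤ s)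
    (hσ : 0 < σ) (hy : σ ≤ |y|) (hy' : σ ≤ |y'|) :
    |x / y - x' / y'| ≤ s * R ^ (n + n + 1) / σ ^ 2 := by
  have h0 : y ≠ 0 := fun e => by
    rw [e, abs_zero] at hy
    linarith
  have h1 : y' ≠ 0 := fun e => by
    rw [e, abs_zero] at hy'
    linarith
  have e1 : x / y - x' / y' = (x * y' - x' * y) / (y * y') := by
    rw [div_sub_div _ _ h0 h1]
    congr 1
    ring
  have h2 := (h.mul h'.symm hR hs).d
  rw [e1, abs_div, abs_mul y y']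
  refine div_le_div₀ (by positivity) h2 (by positivity) ?_
  rw [pow_two]
  exact mul_le_mul hy hy' hσ.le (abs_nonneg _)

theorem sm_le (hR : 2 ≤ R) (hs : 0 ≤ s) (h : s * R ^ 100 ≤ 1) (hn : n + m ≤ 100) :
    s * R ^ n ≤ (R ^ m)⁻¹ := by
  have hRm : 0 < R ^ m := by positivity
  rw [← one_div, le_div_iff₀ hRm, mul_assoc, ← pow_add]
  exact (mul_le_mul_of_nonneg_left (pow_le_pow_right₀ (by linarith) hn) hs).trans h

theorem iv_le (hR : 2 ≤ R) (n : ℕ) : 2 * (R ^ (n + 1))⁻¹ ≤ (R ^ n)⁻¹ := by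
  have h0 : 0 < R ^ n := by positivity
  have h1 : 0 < R ^ (n + 1) := by positivity
  rw [← one_div, ← one_div, mul_div_assoc', div_le_div_iff₀ h1 h0]
  have := pw_two hR n
  linarith

theorem iv_mono (hR : 2 ≤ R) (h : n ≤ m) : (R ^ m)⁻¹ ≤ (R ^ n)⁻¹ := by
  have h0 : 0 < R ^ n := by positivity
  exact inv_anti₀ h0 (pow_le_pow_right₀ (by linarith) h)

theorem sm_div (hR : 2 ≤ R) (hs : 0 ≤ s) {a : ℝ} {k : ℕ} (h : s * R ^ 100 ≤ 1)
    (ha : a ≤ s * R ^ n / ((R ^ m)⁻¹) ^ 2) (hn : n + 2 * m + k ≤ 100) : a ≤ (R ^ k)⁻¹ := by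
  refine ha.trans ?_
  have e1 : s * R ^ n / ((R ^ m)⁻¹) ^ 2 = s * R ^ (n + 2 * m) := by
    have h0 : R ^ m ≠ 0 := by positivity
    rw [pow_add, pow_mul' R 2 m]
    field_simp
  rw [e1]
  exact sm_le hR hs h hn

namespace Tw

variable (T : Tw R s c J J' M M')

include T

/-- **Case (i)**: `B` is small. -/
theorem c1 {i k : Fin 2} (h : ∀ j l, |Bm M J j l| ≤ (R ^ 8)⁻¹)
    (h' : ∀ j l, |Bm M' J' j l| ≤ (R ^ 8)⁻¹) (hd : (R ^ 4)⁻¹ ≤ |M.d i k|)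
    (hd' : (R ^ 4)⁻¹ ≤ |M'.d i k|) (hs1 : s * R ^ 100 ≤ 1) :
    (∀ l, |M.d l k / M.d i k - M'.d l k / M'.d i k| ≤ (R ^ 1)⁻¹) ∧
      ∀ j, |∑ l, J j l * (M.d l k / M.d i k) - ∑ l, J' j l * (M'.d l k / M'.d i k)| ≤
        (R ^ 1)⁻¹ := by
  have hR := T.R2
  have hs := T.s0
  have h4 : 0 < (R ^ 4)⁻¹ := by positivity
  refine ⟨fun l => sm_div hR hs hs1 ((T.d l k).div (T.d i k) hR hs h4 hd hd') (by norm_num),
    fun j => ?_⟩
  have e1 : ∀ (M : Hs) (J : Fin 2 → Fin 2 → ℝ), ∑ l, J j l * (M.d l k / M.d i k) =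
      Bm M J j k / M.d i k - M.b j k / M.d i k := fun M J => by
    simp only [Bm, Fin.sum_univ_two]
    ring
  rw [e1, e1]
  have h1 : |M.b j k / M.d i k - M'.b j k / M'.d i k| ≤ (R ^ 3)⁻¹ :=
    sm_div hR hs hs1 ((T.b j k).div (T.d i k) hR hs h4 hd hd') (by norm_num)
  have h2 : ∀ (x y : ℝ), |x| ≤ (R ^ 8)⁻¹ → (R ^ 4)⁻¹ ≤ |y| → |x / y| ≤ (R ^ 4)⁻¹ := by
    intro x y hx hy
    rw [abs_div]
    refine (div_le_div₀ (by positivity) hx h4 hy).trans (le_of_eq ?_)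
    rw [div_eq_mul_inv, inv_inv, show R ^ 8 = R ^ 4 * R ^ 4 by ring, mul_inv, mul_assoc,
      inv_mul_cancel₀ (by positivity), mul_one]
  have h3 := h2 _ _ (h j k) hd
  have h5 := h2 _ _ (h' j k) hd'
  have h6 := iv_le hR 3
  have h7 := iv_le hR 2
  have h8 := iv_le hR 1
  norm_num at h6 h7 h8
  have a1 := abs_le.1 h1
  have a2 := abs_le.1 h3
  have a3 := abs_le.1 h5
  have h9 : 0 < (R ^ 4)⁻¹ := h4
  have h10 : 0 < (R ^ 3)⁻¹ := by positivity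
  rw [pow_one, abs_le]
  constructor <;> linarith

/-- **Case (iii)**: the determinant of `B` is large. -/
theorem c3 (h : ((R ^ 30)⁻¹ ≤ dtm (Bm M J) ∧ (R ^ 30)⁻¹ ≤ dtm (Bm M' J')) ∨
      (dtm (Bm M J) ≤ -(R ^ 30)⁻¹ ∧ dtm (Bm M' J') ≤ -(R ^ 30)⁻¹)) (hs1 : s * R ^ 100 ≤ 1)
    (j l : Fin 2) : |J j l - J' j l| ≤ (R ^ 1)⁻¹ := by
  have hR := T.R2
  have hs := T.s0
  have h0 : 0 < (R ^ 30)⁻¹ := by positivity
  have h1 : (R ^ 30)⁻¹ ≤ 1 := inv_le_one_of_one_le₀ (one_le_pow₀ (by linarith))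
  refine (T.Jd h0 h1 (sm_le hR hs hs1 (by norm_num)) h j l).trans ?_
  have e1 : s * R ^ 22 / (R ^ 30)⁻¹ = s * R ^ 52 := by
    rw [div_eq_mul_inv, inv_inv]
    ring
  rw [e1]
  exact sm_le hR hs hs1 (by norm_num)

end Tw

/-- The pivot of `x` is not small. -/
theorem one_x {B : Fin 2 → Fin 2 → ℝ} (hR : 2 ≤ R) (hc : |c| ≤ R) (hδ : (R ^ 1)⁻¹ ≤ δ)
    {j₀ i : Fin 2} (h8 : (R ^ 8)⁻¹ ≤ |B j₀ i|) (hn : δ < |c - -(B 0 i / B 1 i)|) :
    (R ^ 11)⁻¹ ≤ |lm (ec c) B i| := by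
  have e1 : lm (ec c) B i = B 0 i + c * B 1 i := by
    simp only [lm, ec, Fin.sum_univ_two, Matrix.cons_val_zero, Matrix.cons_val_one, one_mul]
  rw [e1]
  have hR0 : 0 < R := by linarith
  by_cases h1 : |B j₀ i| ≤ 2 * R * |B 1 i|
  · have h2 : B 1 i ≠ 0 := fun e => by
      rw [e, abs_zero, mul_zero] at h1
      have : 0 < (R ^ 8)⁻¹ := by positivity
      linarith
    have e2 : B 0 i + c * B 1 i = B 1 i * (c - -(B 0 i / B 1 i)) := by
      field_simp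
      ring
    rw [e2, abs_mul]
    have h3 : (R ^ 10)⁻¹ ≤ |B 1 i| := by
      have h4 : (R ^ 8)⁻¹ ≤ 2 * R * |B 1 i| := h8.trans h1
      have h5 : 2 * R * |B 1 i| ≤ R ^ 2 * |B 1 i| := by
        refine mul_le_mul_of_nonneg_right ?_ (abs_nonneg _)
        nlinarith
      have h6 : (R ^ 8)⁻¹ = R ^ 2 * (R ^ 10)⁻¹ := by
        field_simp
      have h7 := h4.trans h5
      rw [h6] at h7
      exact le_of_mul_le_mul_left h7 (by positivity)
    have h4 : (R ^ 11)⁻¹ = (R ^ 10)⁻¹ * (R ^ 1)⁻¹ := by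
      rw [← mul_inv]
      congr 1
      ring
    rw [h4]
    exact mul_le_mul h3 (hδ.trans hn.le) (by positivity) (abs_nonneg _)
  · push Not at h1
    have h2 : j₀ = 0 := by
      rcases Fin.exists_fin_two.1 ⟨j₀, rfl⟩ with h | h
      · exact h
      · rw [h] at h1
        have := abs_nonneg (B 1 i)
        nlinarith
    rw [h2] at h1 h8
    have h3 : |c * B 1 i| ≤ |B 0 i| / 2 := by
      rw [abs_mul]
      have := mul_le_mul_of_nonneg_right hc (abs_nonneg (B 1 i))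
      linarith
    have h4 := abs_add_le (B 0 i + c * B 1 i) (-(c * B 1 i))
    rw [abs_neg, show B 0 i + c * B 1 i + -(c * B 1 i) = B 0 i by ring] at h4
    have h5 := iv_le hR 8
    have h6 : (R ^ 11)⁻¹ ≤ (R ^ (8 + 1))⁻¹ := iv_mono hR (by norm_num)
    linarith

/-- The big row is nearly a multiple of `x`. -/
theorem one_q {B : Fin 2 → Fin 2 → ℝ} (hR : 2 ≤ R) (hc : |c| ≤ R) {j₀ i : Fin 2}
    (h8 : (R ^ 8)⁻¹ ≤ |B j₀ i|) (hx : (R ^ 11)⁻¹ ≤ |lm (ec c) B i|)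
    (hd : |dtm B| ≤ (R ^ 30)⁻¹) (l : Fin 2) :
    |B j₀ l / B j₀ i - lm (ec c) B l / lm (ec c) B i| ≤ (R ^ 10)⁻¹ := by
  have p8 : 0 < (R ^ 8)⁻¹ := by positivity
  have p11 : 0 < (R ^ 11)⁻¹ := by positivity
  have hB : B j₀ i ≠ 0 := fun e => by
    rw [e, abs_zero] at h8
    linarith
  have hX : lm (ec c) B i ≠ 0 := fun e => by
    rw [e, abs_zero] at hx
    linarith
  have hnum : |B j₀ l * lm (ec c) B i - B j₀ i * lm (ec c) B l| ≤ R * (R ^ 30)⁻¹ := by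
    have h1 : |B j₀ l * lm (ec c) B i - B j₀ i * lm (ec c) B l| ≤ R * |dtm B| := by
      have a1 : |B j₀ l * lm (ec c) B i - B j₀ i * lm (ec c) B l| ≤ |c * dtm B| ∨
          |B j₀ l * lm (ec c) B i - B j₀ i * lm (ec c) B l| ≤ |dtm B| := by
        rcases Fin.exists_fin_two.1 ⟨j₀, rfl⟩ with h | h <;>
          rcases Fin.exists_fin_two.1 ⟨i, rfl⟩ with h' | h' <;>
          rcases Fin.exists_fin_two.1 ⟨l, rfl⟩ with h'' | h'' <;> rw [h, h', h''] <;>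
          simp only [lm, dtm, ec, Fin.sum_univ_two, Matrix.cons_val_zero, Matrix.cons_val_one,
            one_mul]
        · left
          rw [show B 0 0 * (B 0 0 + c * B 1 0) - B 0 0 * (B 0 0 + c * B 1 0) = 0 by ring, abs_zero]
          exact abs_nonneg _
        · left
          rw [show B 0 1 * (B 0 0 + c * B 1 0) - B 0 0 * (B 0 1 + c * B 1 1) =
            -(c * (B 0 0 * B 1 1 - B 0 1 * B 1 0)) by ring, abs_neg]
        · left
          rw [show B 0 0 * (B 0 1 + c * B 1 1) - B 0 1 * (B 0 0 + c * B 1 0) =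
            c * (B 0 0 * B 1 1 - B 0 1 * B 1 0) by ring]
        · left
          rw [show B 0 1 * (B 0 1 + c * B 1 1) - B 0 1 * (B 0 1 + c * B 1 1) = 0 by ring, abs_zero]
          exact abs_nonneg _
        · left
          rw [show B 1 0 * (B 0 0 + c * B 1 0) - B 1 0 * (B 0 0 + c * B 1 0) = 0 by ring, abs_zero]
          exact abs_nonneg _
        · right
          rw [show B 1 1 * (B 0 0 + c * B 1 0) - B 1 0 * (B 0 1 + c * B 1 1) =
            B 0 0 * B 1 1 - B 0 1 * B 1 0 by ring]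
        · right
          rw [show B 1 0 * (B 0 1 + c * B 1 1) - B 1 1 * (B 0 0 + c * B 1 0) =
            -(B 0 0 * B 1 1 - B 0 1 * B 1 0) by ring, abs_neg]
        · left
          rw [show B 1 1 * (B 0 1 + c * B 1 1) - B 1 1 * (B 0 1 + c * B 1 1) = 0 by ring, abs_zero]
          exact abs_nonneg _
      rcases a1 with a1 | a1
      · rw [abs_mul] at a1
        exact a1.trans (mul_le_mul_of_nonneg_right hc (abs_nonneg _))
      · refine a1.trans (le_mul_of_one_le_left (abs_nonneg _) (by linarith))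
    exact h1.trans (mul_le_mul_of_nonneg_left hd (by linarith))
  rw [div_sub_div _ _ hB hX, abs_div, abs_mul (B j₀ i)]
  refine (div_le_div₀ (by positivity) hnum (by positivity)
    (mul_le_mul h8 hx p11.le (abs_nonneg _))).trans (le_of_eq ?_)
  have hR0 : R ≠ 0 := by linarith
  field_simp

namespace Tw

variable (T : Tw R s c J J' M M')

include T

/-- **Case (ii)**: the determinant of `B` is small. -/
theorem c2 {j₀ i : Fin 2} (h8 : (R ^ 8)⁻¹ ≤ |Bm M J j₀ i|) (h8' : (R ^ 8)⁻¹ ≤ |Bm M' J' j₀ i|)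
    (hd : |dtm (Bm M J)| ≤ (R ^ 30)⁻¹) (hd' : |dtm (Bm M' J')| ≤ (R ^ 30)⁻¹)
    (hδ : (R ^ 1)⁻¹ ≤ δ) (hn : δ < |c - -(Bm M J 0 i / Bm M J 1 i)|)
    (hn' : δ < |c - -(Bm M' J' 0 i / Bm M' J' 1 i)|) (hs1 : s * R ^ 100 ≤ 1) :
    (∀ l, |Bm M J j₀ l / Bm M J j₀ i - Bm M' J' j₀ l / Bm M' J' j₀ i| ≤ (R ^ 1)⁻¹) ∧
      ∀ j, |∑ l, J j l * (Bm M J j₀ l / Bm M J j₀ i) -
        ∑ l, J' j l * (Bm M' J' j₀ l / Bm M' J' j₀ i)| ≤ (R ^ 1)⁻¹ := by
  have hR := T.R2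
  have hs := T.s0
  have hx := one_x hR T.hc hδ h8 hn
  have hx' := one_x hR T.hc hδ h8' hn'
  have hq := one_q hR T.hc h8 hx hd
  have hq' := one_q hR T.hc h8' hx' hd'
  have p11 : 0 < (R ^ 11)⁻¹ := by positivity
  have hxq : ∀ l, |lm (ec c) (Bm M J) l / lm (ec c) (Bm M J) i -
      lm (ec c) (Bm M' J') l / lm (ec c) (Bm M' J') i| ≤ (R ^ 10)⁻¹ := fun l =>
    sm_div hR hs hs1 ((T.x1 l).div (T.x1 i) hR hs p11 hx hx') (by norm_num)
  have hJq : ∀ j, |rm J (lm (ec c) (Bm M J)) j / lm (ec c) (Bm M J) i -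
      rm J' (lm (ec c) (Bm M' J')) j / lm (ec c) (Bm M' J') i| ≤ (R ^ 10)⁻¹ := fun j =>
    sm_div hR hs hs1 ((T.Jx j).div ((T.x1 i).mono hR hs (by norm_num)) hR hs p11 hx hx')
      (by norm_num)
  have i9 : 2 * (R ^ 10)⁻¹ ≤ (R ^ 9)⁻¹ := iv_le hR 9
  have i8 : 2 * (R ^ 9)⁻¹ ≤ (R ^ 8)⁻¹ := iv_le hR 8
  have i7 : 2 * (R ^ 8)⁻¹ ≤ (R ^ 7)⁻¹ := iv_le hR 7
  have i1 : (R ^ 7)⁻¹ ≤ (R ^ 1)⁻¹ := iv_mono hR (by norm_num)
  have p10 : 0 < (R ^ 10)⁻¹ := by positivity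
  refine ⟨fun l => ?_, fun j => ?_⟩
  · have a1 := abs_le.1 (hq l)
    have a2 := abs_le.1 (hq' l)
    have a3 := abs_le.1 (hxq l)
    refine le_trans ?_ i1
    rw [abs_le]
    constructor <;> linarith
  · have key : ∀ (J : Fin 2 → Fin 2 → ℝ) (B : Fin 2 → Fin 2 → ℝ), (∀ j l, |J j l| ≤ R) →
        (∀ l, |B j₀ l / B j₀ i - lm (ec c) B l / lm (ec c) B i| ≤ (R ^ 10)⁻¹) →
        |∑ l, J j l * (B j₀ l / B j₀ i) - rm J (lm (ec c) B) j / lm (ec c) B i| ≤ (R ^ 8)⁻¹ := by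
      intro J B hJ hB
      have e1 : ∑ l, J j l * (B j₀ l / B j₀ i) - rm J (lm (ec c) B) j / lm (ec c) B i =
          J j 0 * (B j₀ 0 / B j₀ i - lm (ec c) B 0 / lm (ec c) B i) +
            J j 1 * (B j₀ 1 / B j₀ i - lm (ec c) B 1 / lm (ec c) B i) := by
        simp only [rm, Fin.sum_univ_two]
        ring
      rw [e1]
      refine (abs_add_le _ _).trans ?_
      rw [abs_mul, abs_mul]
      have a1 := mul_le_mul (hJ j 0) (hB 0) (abs_nonneg _) (by linarith)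
      have a2 := mul_le_mul (hJ j 1) (hB 1) (abs_nonneg _) (by linarith)
      have e2 : R * (R ^ 10)⁻¹ = (R ^ 9)⁻¹ := by
        have hR0 : R ≠ 0 := by linarith
        field_simp
      rw [e2] at a1 a2
      linarith
    have a1 := abs_le.1 (key J _ T.j1 hq)
    have a2 := abs_le.1 (key J' _ T.j2 hq')
    have a3 := abs_le.1 (hJq j)
    have i6 : 2 * (R ^ 7)⁻¹ ≤ (R ^ 6)⁻¹ := iv_le hR 6
    have i1' : (R ^ 6)⁻¹ ≤ (R ^ 1)⁻¹ := iv_mono hR (by norm_num)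
    refine le_trans ?_ i1'
    have p8 : 0 < (R ^ 8)⁻¹ := by positivity
    rw [abs_le]
    constructor <;> linarith

end Tw

end Pool.NV91
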