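import Pool.Agent.H91.NV.Apc

/-!
# A closed combination of two slopes is void

`nv_void`: on an event of constant mass there is no combination `nP` of the two places `k`, `k + 1`
with unit pivot, of slopes `tP` in the directions of the time and of the slope-one places, both closed
up to `2 ^ (-θ J)`.
-/

set_option autoImplicit false

namespace Pool.NV91

open Finset Real MvPolynomial
open Pool.Agent.H49.Ent Pool.Agent.H32.Dense
open Pool.STK hiding pr2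
open Pool.KA Pool.KSAT Pool.K2S Pool.PB Pool.S6C
open Pool.GEN Pool.CHT Pool.CHX Pool.ISO Pool.LA91 Pool.AVG71 Pool.AVG5 Pool.D2F2 Pool.AVG57
open Pool.RCD Pool.AVG96 Pool.OWN68 Pool.V0F Pool.V0Q Pool.V0T

variable {m : ℕ} {S : PCl m} {c : ℕ → Fin m} {r : ℕ} {sn : ℕ → ℝ → ℝ} {w φ : ℝ}

/-- A power of two beats a constant. -/
theorem two_big (C : ℝ) {θ : ℝ} (hθ : 0 < θ) : ∃ J₁ : ℕ, ∀ J ≥ J₁, C ≤ (2 : ℝ) ^ (θ * (J : ℝ)) := by
  obtain ⟨J₁, hJ₁⟩ := exists_nat_ge (2 * |C| / θ)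
  refine ⟨J₁, fun J hJ => ?_⟩
  have h1 : (J₁ : ℝ) ≤ J := by exact_mod_cast hJ
  have h2 := hJ₁.trans h1
  rw [div_le_iff₀ hθ] at h2
  have h3 : 0.69 < Real.log 2 := by
    have := Real.log_two_gt_d9
    linarith
  have h4 : (2 : ℝ) ^ (θ * (J : ℝ)) = Real.exp (θ * J * Real.log 2) := by
    rw [Real.rpow_def_of_pos (by norm_num)]
    congr 1
    ring
  rw [h4]
  have h5 := Real.add_one_le_exp (θ * J * Real.log 2)
  have h6 : 2 * |C| * 0.69 ≤ θ * J * Real.log 2 := by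
    have a1 : 2 * |C| * 0.69 ≤ 2 * |C| * Real.log 2 :=
      mul_le_mul_of_nonneg_left h3.le (by positivity)
    have a2 : 2 * |C| * Real.log 2 ≤ θ * J * Real.log 2 :=
      mul_le_mul_of_nonneg_right (by linarith) (by linarith)
    linarith
  have h7 := le_abs_self C
  have h8 := abs_nonneg C
  linarith

/-- **(NVE)** A closed combination of the two slopes is void. `x j`: natural coordinates of the time
and of the slope-one places, known from the exact positions of these places and closed data. -/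
theorem nv_void (L : Lad S c r sn {w} w w φ) {k : ℕ} (hk : k + 1 < r) (D d : ℕ) {θ ι E π₀ : ℝ}
    (hθ : 0 < θ) (hι : 64 * ι ≤ θ) (hφι : φ ≤ ι) (hw : θ + w + 20 * ((r : ℝ) + 1) * φ ≤ 1)
    (hs : ∀ i ≤ k + 1, θ + sn i w + 20 * ((r : ℝ) + 1) * φ ≤ 1) (hπ : 0 < π₀) :
    Bas S (fun J F A => ∀ H : LnT F → ℕ → MvPolynomial (Option (Fin m)) ℝ,
      LdW F c k D w φ E sn A H → LdW F c (k + 1) D w φ E sn A H →
      ∀ B : F.Ω → Prop, Sub B A → π₀ * Pe F.p A ≤ Pe F.p B →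
      ∀ (V₁ : Type) (z₁ : F.Ω → V₁), Cl2 (ptr F J) (vg w J F) B z₁ →
      ∀ (x : Fin d → F.Ω → ℝ) (s : F.Ω → ℝ)
      (UP : PtT F → Fin 2 → ℝ) (xP : PtT F → Fin d → ℝ) (U0 Dl : LnT F → Fin 2 → ℝ)
      (x0 ee : LnT F → Fin d → ℝ) (Jp : PtT F → Fin d → Fin 2 → ℝ) (i : Fin 2)
      (nP : PtT F → Fin 2 → ℝ) (tP : PtT F → Fin d → ℝ) (nL : LnT F → Fin 2 → ℝ)
      (tL : LnT F → Fin d → ℝ),
      -- the sizes
      (∀ ω, B ω → |s ω| ≤ 2 ^ (ι * J) ∧ (∀ j, |x j ω| ≤ 2 ^ (ι * J)) ∧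
        (∀ l, |Dl (vg w J F ω) l| ≤ 2 ^ (ι * J)) ∧ (∀ j, |ee (vg w J F ω) j| ≤ 2 ^ (ι * J)) ∧
        ∀ j l, |Jp (ptr F J ω) j l| ≤ 2 ^ (ι * J)) →
      -- the coordinates are known
      (∀ ω ω', B ω → B ω' → z₁ ω = z₁ ω' → (∀ l < k, F.X J ω (c l) = F.X J ω' (c l)) →
        F.W ω = F.W ω' → ∀ j, |x j ω - x j ω'| ≤ 2 ^ (-(θ * J))) →
      -- functions of the point
      (∀ ω, B ω → (∀ l : Fin 2, |nh F c w sn H (k + l) ω - UP (ptr F J ω) l| ≤ 2 ^ (-(θ * J))) ∧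
        ∀ j, |x j ω - xP (ptr F J ω) j| ≤ 2 ^ (-(θ * J))) →
      -- the motion along the own line
      (∀ ω, B ω → (∀ l : Fin 2, |nh F c w sn H (k + l) ω -
          (U0 (vg w J F ω) l + Dl (vg w J F ω) l * s ω)| ≤ 2 ^ (-(θ * J))) ∧
        (∀ j, |x j ω - (x0 (vg w J F ω) j + ee (vg w J F ω) j * s ω)| ≤ 2 ^ (-(θ * J))) ∧
        ∀ l, |∑ j, ee (vg w J F ω) j * Jp (ptr F J ω) j l - Dl (vg w J F ω) l| ≤
          2 ^ (-(θ * J))) →
      -- the closed combination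
      (∀ y, nP y i = 1 ∧ ∀ l, |nP y l| ≤ 1) → (∀ y l, |nL y l| ≤ 1) →
      (∀ ω, B ω → (∀ j, |∑ l, Jp (ptr F J ω) j l * nP (ptr F J ω) l -
          tP (ptr F J ω) j| ≤ 2 ^ (-(θ * J))) ∧
        (∀ l, |nP (ptr F J ω) l - nL (vg w J F ω) l| ≤ 2 ^ (-(θ * J))) ∧
        ∀ j, |tP (ptr F J ω) j - tL (vg w J F ω) j| ≤ 2 ^ (-(θ * J))) → False) := by
  have hφ := L.φ0
  have hι0 : 0 < ι := by linarith
  have hd0 : (0 : ℝ) ≤ d := Nat.cast_nonneg d
  obtain ⟨C₁, hC₁⟩ : ∃ C₁ : ℝ, C₁ = (12 * ((d : ℝ) + 3) + 6) * (10 + 7 * d) := ⟨_, rfl⟩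
  have hC0 : 0 ≤ C₁ := by rw [hC₁]; positivity
  obtain ⟨J₁, hJ₁⟩ := two_big (C₁ + d * (C₁ + 3)) (show 0 < θ / 16 by positivity)
  refine Bas.mono J₁ (strip_void L hk D (E := E) hθ (by linarith) hw hs (half_pos hπ)) ?_
  intro J hJ F A Hs H L₀ L₁ B hB hPB V₁ z₁ hz₁ x s UP xP U0 Dl x0 ee Jp i nP tP nL tL hsz hxk hpt
    hln hnP hnL hcl
  have hJ0 : (0 : ℝ) ≤ J := Nat.cast_nonneg J
  have hLd : ∀ l : Fin 2, LdW F c (k + l) D w φ E sn A H := by
    intro l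
    rcases Fin.exists_fin_two.1 ⟨l, rfl⟩ with h | h
    · rw [h]
      exact L₀
    · rw [h]
      exact L₁
  obtain ⟨K, hK⟩ : ∃ K : ℝ, K = 2 ^ (ι * J) := ⟨_, rfl⟩
  obtain ⟨δ, hδ⟩ : ∃ δ : ℝ, δ = 2 ^ (-(θ * J)) := ⟨_, rfl⟩
  have hK1 : 1 ≤ K := by
    rw [hK]
    exact Real.one_le_rpow (by norm_num) (by positivity)
  have hδ0 : 0 < δ := by rw [hδ]; positivity
  have hδ1 : δ ≤ 1 := by
    rw [hδ, show (1 : ℝ) = 2 ^ (0 : ℝ) by rw [Real.rpow_zero]]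
    refine Real.rpow_le_rpow_of_exponent_le (by norm_num) ?_
    have : 0 ≤ θ * J := by positivity
    linarith
  rw [← hK] at hsz
  rw [← hδ] at hxk hpt hln hcl
  obtain ⟨htP, hf⟩ := apc_lin (w := w) (B := B) hδ0.le hδ1 hK1
    (U := fun l ω => nh F c w sn H (k + (l : ℕ)) ω) (x := x) (s := s) (UP := UP) (xP := xP)
    (U0 := U0) (Dl := Dl) (x0 := x0) (ee := ee) (Jp := Jp) (nP := nP) (tP := tP) (nL := nL)
    (tL := tL) (fun ω hω => (hsz ω hω).1) (fun ω hω l => by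
      refine (nh_le (hLd l) (hB ω hω)).trans ?_
      rw [hK]
      have : (2 : ℝ) ^ (φ * J) ≤ 2 ^ (ι * J) := Real.rpow_le_rpow_of_exponent_le (by norm_num)
        (mul_le_mul_of_nonneg_right hφι hJ0)
      linarith) (fun ω hω => (hsz ω hω).2.1) (fun ω hω => (hsz ω hω).2.2.1)
    (fun ω hω => (hsz ω hω).2.2.2.1) (fun ω hω => (hsz ω hω).2.2.2.2)
    (fun ω hω => (hpt ω hω).1) (fun ω hω => (hpt ω hω).2) (fun ω hω => (hln ω hω).1)
    (fun ω hω => (hln ω hω).2.1) (fun ω hω => (hln ω hω).2.2) (fun y => (hnP y).2) hnL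
    (fun ω hω => (hcl ω hω).1) (fun ω hω => (hcl ω hω).2.1) (fun ω hω => (hcl ω hω).2.2)
  obtain ⟨f, hfd⟩ : ∃ f : F.Ω → ℝ, f = fun ω => ∑ l : Fin 2, nP (ptr F J ω) l *
    nh F c w sn H (k + l) ω - ∑ j, tP (ptr F J ω) j * x j ω := ⟨_, rfl⟩
  obtain ⟨δ', hδ'⟩ : ∃ δ' : ℝ, δ' = (10 + 7 * (d : ℝ)) * K ^ 2 * δ := ⟨_, rfl⟩
  have hK2 : 1 ≤ K ^ 2 := one_le_pow₀ hK1
  have hδδ' : δ ≤ δ' := by
    rw [hδ']
    have h1 : 1 * δ ≤ K ^ 2 * δ := mul_le_mul_of_nonneg_right hK2 hδ0.le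
    have h2 : 1 * (K ^ 2 * δ) ≤ (10 + 7 * (d : ℝ)) * (K ^ 2 * δ) :=
      mul_le_mul_of_nonneg_right (by linarith) (by positivity)
    linarith
  have hδ'0 : 0 < δ' := lt_of_lt_of_le hδ0 hδδ'
  rw [← hfd, ← hδ'] at hf
  -- a common closed code
  obtain ⟨a, ha⟩ : ∃ a : Fin 2 ⊕ (Fin d ⊕ Unit) → F.Ω → ℝ, a = fun j ω => match j with
    | Sum.inl l => nP (ptr F J ω) l
    | Sum.inr (Sum.inl j) => tP (ptr F J ω) j
    | Sum.inr (Sum.inr _) => f ω := ⟨_, rfl⟩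
  have haC : ∀ j, ApC F w B δ' (a j) := by
    intro j
    rw [ha]
    rcases j with l | j | u
    · refine ⟨fun y => nP y l, fun v => nL v l, fun ω hω => ⟨?_, ((hcl ω hω).2.1 l).trans hδδ'⟩⟩
      simp only [sub_self, abs_zero]
      exact hδ'0.le
    · refine ⟨fun y => tP y j, fun v => tL v j, fun ω hω => ⟨?_, ((hcl ω hω).2.2 j).trans hδδ'⟩⟩
      simp only [sub_self, abs_zero]
      exact hδ'0.le
    · exact hf
  obtain ⟨B', hB', hPB', V', z', hz', hcode⟩ := apc_round hδ'0 haC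
  have hcard : (Fintype.card (Fin 2 ⊕ (Fin d ⊕ Unit)) : ℝ) = (d : ℝ) + 3 := by
    rw [Fintype.card_sum, Fintype.card_sum, Fintype.card_fin, Fintype.card_fin, Fintype.card_unit]
    push_cast
    ring
  rw [hcard] at hcode
  have eC : (12 * ((d : ℝ) + 3) + 6) * δ' = C₁ * (K ^ 2 * δ) := by
    rw [hC₁, hδ']
    ring
  rw [eC] at hcode
  -- the width of the strip
  have hK3 : K ^ 2 * δ ≤ K ^ 3 * δ := by
    refine mul_le_mul_of_nonneg_right ?_ hδ0.le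
    have : K ^ 2 * 1 ≤ K ^ 2 * K := mul_le_mul_of_nonneg_left hK1 (by positivity)
    have h3 : K ^ 3 = K ^ 2 * K := by ring
    linarith
  have hKδ : K * δ ≤ K ^ 3 * δ := by
    refine mul_le_mul_of_nonneg_right ?_ hδ0.le
    have : K * 1 ≤ K * K ^ 2 := mul_le_mul_of_nonneg_left hK2 (by linarith)
    have h3 : K ^ 3 = K * K ^ 2 := by ring
    linarith
  have hfin : (C₁ + d * (C₁ + 3)) * (K ^ 3 * δ) ≤ 2 ^ (-(7 / 8 * θ * J)) := by
    have h1 : K ^ 3 * δ ≤ 2 ^ (-(15 / 16 * θ * J)) := by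
      have h2 : K ^ 3 = 2 ^ (3 * (ι * J)) := by
        rw [hK, ← Real.rpow_natCast, ← Real.rpow_mul (by norm_num)]
        congr 1
        push_cast
        ring
      rw [h2, hδ, ← Real.rpow_add (by norm_num)]
      refine Real.rpow_le_rpow_of_exponent_le (by norm_num) ?_
      have := mul_le_mul_of_nonneg_right hι hJ0
      have h3 : 0 ≤ θ * J := by positivity
      linarith
    refine (mul_le_mul (hJ₁ J hJ) h1 (by positivity) (by positivity)).trans (le_of_eq ?_)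
    rw [← Real.rpow_add (by norm_num)]
    congr 1
    ring
  refine Hs H L₀ L₁ B' (fun ω h => hB ω (hB' ω h)) (by linarith) (V₁ × V')
    (fun ω => (z₁ ω, z' ω)) ?_ i (fun l ω => nP (ptr F J ω) l)
    (fun ω => ∑ l : Fin 2, nP (ptr F J ω) l * nh F c w sn H (k + l) ω) (fun ω _ => hnP _)
    (fun ω ω' hω hω' ez hX hW => ?_) (fun ω _ => ?_)
  · obtain ⟨⟨χ₁, h1⟩, χ₂, h2⟩ := hz₁
    obtain ⟨⟨χ₃, h3⟩, χ₄, h4⟩ := hz'
    exact ⟨⟨fun y => (χ₁ y, χ₃ y), fun ω hω => Prod.ext (h1 ω (hB' ω hω)) (h3 ω hω)⟩,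
      fun v => (χ₂ v, χ₄ v), fun ω hω => Prod.ext (h2 ω (hB' ω hω)) (h4 ω hω)⟩
  · have hωB := hB' ω hω
    have hωB' := hB' ω' hω'
    have ez1 : z₁ ω = z₁ ω' := congrArg Prod.fst ez
    have ez2 : z' ω = z' ω' := congrArg Prod.snd ez
    have hc := hcode ω ω' hω hω' ez2
    have hx1 := hxk ω ω' hωB hωB' ez1 hX hW
    have hC1le : C₁ * (K ^ 2 * δ) ≤ C₁ * (K ^ 3 * δ) := mul_le_mul_of_nonneg_left hK3 hC0
    have hdle : 0 ≤ d * (C₁ + 3) * (K ^ 3 * δ) := by positivity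
    refine ⟨fun l => ?_, ?_⟩
    · have h1 := hc (Sum.inl l)
      rw [ha] at h1
      refine h1.trans (le_trans ?_ hfin)
      linarith
    · have h1 := hc (Sum.inr (Sum.inr ()))
      rw [ha] at h1
      have h1' : |f ω - f ω'| ≤ C₁ * (K ^ 2 * δ) := h1
      have h2 : ∀ j, |tP (ptr F J ω) j * x j ω - tP (ptr F J ω') j * x j ω'| ≤
          (C₁ + 3) * (K ^ 3 * δ) := by
        intro j
        have h3 := hc (Sum.inr (Sum.inl j))
        rw [ha] at h3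
        have h3' : |tP (ptr F J ω) j - tP (ptr F J ω') j| ≤ C₁ * (K ^ 2 * δ) := h3
        have h4 := (hsz ω hωB).2.1 j
        have h5 := htP ω' hωB' j
        have h6 := hx1 j
        have e1 : tP (ptr F J ω) j * x j ω - tP (ptr F J ω') j * x j ω' =
            (tP (ptr F J ω) j - tP (ptr F J ω') j) * x j ω +
              tP (ptr F J ω') j * (x j ω - x j ω') := by ring
        rw [e1]
        refine (abs_add_le _ _).trans ?_
        rw [abs_mul, abs_mul]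
        have h7 := mul_le_mul h3' h4 (abs_nonneg _) (by positivity)
        have h8 := mul_le_mul h5 h6 (abs_nonneg _) (by positivity)
        have h9 : C₁ * (K ^ 2 * δ) * K = C₁ * (K ^ 3 * δ) := by ring
        have h10 : 3 * K * δ ≤ 3 * (K ^ 3 * δ) := by linarith
        rw [h9] at h7
        linarith
      have h3 : |∑ j, (tP (ptr F J ω) j * x j ω - tP (ptr F J ω') j * x j ω')| ≤
          d * ((C₁ + 3) * (K ^ 3 * δ)) := by
        refine (Finset.abs_sum_le_sum_abs _ _).trans ((Finset.sum_le_sum fun j _ => h2 j).trans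
          (le_of_eq ?_))
        rw [Finset.sum_const, Finset.card_univ, Fintype.card_fin, nsmul_eq_mul]
      have e1 : ∀ ω, ∑ l : Fin 2, nP (ptr F J ω) l * nh F c w sn H (k + l) ω =
          f ω + ∑ j, tP (ptr F J ω) j * x j ω := fun ω => by
        rw [hfd]
        ring
      simp only [e1]
      rw [Finset.sum_sub_distrib] at h3
      have g1 := abs_le.1 h1'
      have g2 := abs_le.1 h3
      refine le_trans ?_ hfin
      rw [abs_le]
      constructor <;> linarith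
  · rw [sub_self, abs_zero]
    positivity

end Pool.NV91
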