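import Pool.Agent.H91.V0T.Rowt
import Pool.Agent.H5.TT.Few
import Pool.Agent.H48.NV.S

/-!
# Pair fullness against a closed strip

`dig_ful`, `pair_ful`: the heights of two places over the charts of the window `w`, to `θ J` digits
behind the natural ones, are full given the record at `w` and the exact positions of the places
before. `strip_void`: so the pair is not in a strip of width `2 ^ (-θ J)` with closed data.
-/

set_option autoImplicit false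

namespace Pool.NV91

open Finset Real MvPolynomial
open Pool.Agent.H49.Ent Pool.Agent.H32.Dense
open Pool.STK hiding pr2
open Pool.KA Pool.KSAT Pool.K2S Pool.PB Pool.S6C
open Pool.GEN Pool.CHT Pool.CHX Pool.ISO Pool.LA91 Pool.AVG71 Pool.AVG5 Pool.D2F2 Pool.AVG57
open Pool.RCD Pool.AVG96 Pool.OWN68 Pool.V0F Pool.V0Q Pool.V0T
open Pool.AJW (CfB)
open Pool.UNJ (ceI)
open Pool.GRD (LbP)

section law

variable {Ω T : Type} [Fintype Ω] {p : Ω → ℝ}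

/-- **Two integers in a strip.** -/
theorem strip_le (h0 : ∀ ω, 0 ≤ p ω) (h1 : ∑ ω, p ω = 1) {C : Ω → T} {u : Fin 2 → Ω → ℤ}
    (i : Fin 2) {R M : ℝ} (hR : 0 ≤ R) (hM : 0 ≤ M) (hu : ∀ l ω, 0 < p ω → |(u l ω : ℝ)| ≤ R)
    (hs : ∀ ω ω', 0 < p ω → 0 < p ω' → C ω = C ω' → (∀ j, j ≠ i → u j ω = u j ω') →
      |(u i ω : ℝ) - u i ω'| ≤ M) :
    CH p (fun ω => (u 0 ω, u 1 ω)) C ≤ Real.log (4 * R + 1) + Real.log (2 * M + 1) := by
  have key : ∀ j : Fin 2, j ≠ i → (∀ j', j' ≠ i → j' = j) →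
      CH p (fun ω => (u 0 ω, u 1 ω)) C ≤ Real.log (4 * R + 1) + Real.log (2 * M + 1) := by
    intro j hj hj'
    have e1 : CH p (fun ω => (u 0 ω, u 1 ω)) C ≤ CH p (fun ω => (u i ω, u j ω)) C :=
      CH_mono_left h0 fun ω ω' _ _ e => by
        simp only [Prod.mk.injEq] at e
        have h2 : ∀ l : Fin 2, u l ω = u l ω' := fun l => by
          by_cases hl : l = i
          · rw [hl]
            exact e.1.1
          · rw [hj' l hl]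
            exact e.1.2
        rw [h2 0, h2 1]
    have e2 := CH_chain h0 (u i) (u j) C
    have e3 := Pool.TT5.CH_pint h0 h1 (u j) C (D := 2 * R) (by linarith) (fun ω ω' hω hω' _ => by
      have a1 := abs_le.1 (hu j ω hω)
      have a2 := abs_le.1 (hu j ω' hω')
      rw [abs_le]
      constructor <;> linarith)
    have e4 := Pool.TT5.CH_pint h0 h1 (u i) (fun ω => (u j ω, C ω)) hM
      (fun ω ω' hω hω' e => hs ω ω' hω hω' (Prod.ext_iff.mp e).2 fun j' hj'' => by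
        rw [hj' j' hj'']
        exact (Prod.ext_iff.mp e).1)
    have e5 : 2 * (2 * R) + 1 = 4 * R + 1 := by ring
    rw [e5] at e3
    linarith
  rcases Fin.exists_fin_two.1 ⟨i, rfl⟩ with h | h
  · refine key 1 (by rw [h]; decide) fun j' hj' => ?_
    rcases Fin.exists_fin_two.1 ⟨j', rfl⟩ with h' | h'
    · exact absurd (h'.trans h.symm) hj'
    · exact h'
  · refine key 0 (by rw [h]; decide) fun j' hj' => ?_
    rcases Fin.exists_fin_two.1 ⟨j', rfl⟩ with h' | h'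
    · exact h'
    · exact absurd (h'.trans h.symm) hj'

end law

variable {m : ℕ}

/-- The label of the place `l` at the window `w`, on one event. -/
structure LdW {J : ℕ} (F : Fam m J) (c : ℕ → Fin m) (l D : ℕ) (w φ E : ℝ) (sn : ℕ → ℝ → ℝ)
    (A : F.Ω → Prop) (H : LnT F → ℕ → MvPolynomial (Option (Fin m)) ℝ) : Prop where
  lt : ∃ (V : Type) (z : PtT F → V) (z' : LnT F → V) (G : V → MvPolynomial (Option (Fin m)) ℝ),
    LbP F ((range l).image c) (c l) D J ⌊w * J⌋₊ ⌊(sn l w - φ) * J⌋₊ A z z' G ∧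
      ∀ s, G (z' s) = H s l
  cw : CfB F ⌊w * J⌋₊ E (c l) A (fun s => s) (fun s => H s l)

/-- **The height.** -/
theorem ldw_th (m D : ℕ) (N : ℝ) {w E : ℝ} (hw0 : 0 ≤ w) (hw1 : w ≤ 1) :
    ∃ M J₁ : ℕ, ∀ K ≥ M, ∀ J ≥ J₁, ∀ {F : Fam m J} {c : ℕ → Fin m} {l : ℕ} {φ : ℝ}
      {sn : ℕ → ℝ → ℝ} {A : F.Ω → Prop} {H : LnT F → ℕ → MvPolynomial (Option (Fin m)) ℝ},
      LdW F c l D w φ E sn A H → ∀ e : ℝ, 0 ≤ e →
      (qJet m ((range l).image c) (c l) 0 w (sn l w - φ) N).P K e J F A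
        (th0 F c l ⌊w * J⌋₊ H N) := by
  obtain ⟨M, J₁, hM⟩ := qj_win m D 0 (N := N) (E := E) hw0 hw1
  refine ⟨M, J₁, fun K hK J hJ F c l φ sn A H L e he => ?_⟩
  obtain ⟨V, z, z', G, h3, h4⟩ := L.lt
  have h5 := hM K hK J hJ F _ (c l) A V z z' G _ (sn l w - φ) e h3
    (cfb_of L.cw h4) (Nat.floor_le_floor (mul_le_mul_of_nonneg_right (by linarith)
      (Nat.cast_nonneg J)))
  have e1 : th0 F c l ⌊w * J⌋₊ H N = fun ω =>
      ⌊(2 : ℝ) ^ (N * J) * ojet F (c l) 0 (G (z' (slam F ⌊w * J⌋₊ ω))) ω⌋ := by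
    funext ω
    unfold th0
    rw [h4]
  rw [e1]
  exact h5

variable {S : PCl m} {c : ℕ → Fin m} {r : ℕ} {sn : ℕ → ℝ → ℝ} {w φ : ℝ}

/-- **The height of one place is full** given the exact positions of the places before; and few given
its own exact position too. -/
theorem dig_ful (L : Lad S c r sn {w} w w φ) {i : ℕ} (hi : i < r) {N pr : ℝ}
    (hp : sn i w - φ ≤ pr) (hN0 : 0 ≤ N) (hN1 : N ≤ 1)
    (t0 : N + 20 * ((r : ℝ) + 1) * φ ≤ sn i w + (1 - w))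
    (t1 : ∀ l < i, N + 20 * ((r : ℝ) + 1) * φ ≤ sn i w + (1 - sn l w)) {ρ : ℝ} (hρ : 0 < ρ) :
    ∃ κ : ℝ, 0 < κ ∧ ∃ e : ℝ, 0 < e ∧ ∀ K : ℕ, Bas S (fun J F A =>
      ∀ (V : Type) (z : F.Ω → V), Mx (fun J F => ptr F J) (vg w) κ F A z → ∀ u,
      (qJet m ((range i).image c) (c i) 0 w pr N).P K e J F A u →
      (N - sn i w) * Real.log 2 * J - ρ * J ≤ CH (Pool.Agent.H49.Ent.cond F.p A True) u
        (fun ω => ((fun l : Fin i => F.X J ω (c l)), (z ω, F.W ω))) ∧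
      CH (Pool.Agent.H49.Ent.cond F.p A True) u
        (fun ω => (F.X J ω (c i), ((fun l : Fin i => F.X J ω (c l)), (z ω, F.W ω)))) ≤ ρ * J) := by
  have hl2 : 0 < Real.log 2 := Real.log_pos one_lt_two
  have hl1 : Real.log 2 ≤ 1 := by
    have := Real.log_two_lt_d9
    linarith
  obtain ⟨u₁, rd, -, hch⟩ := L.ch.ch w (Set.mem_singleton w)
  obtain ⟨κ, hκ, e, he, H⟩ := exj_base L hi (Set.mem_singleton w) hp hN0 hN1 t0 t1 (ρ / 4)
    (by positivity)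
  obtain ⟨J₁, hJ₁⟩ := exists_nat_ge (4 / ρ)
  refine ⟨κ, hκ, e, he, fun K => Bas.mono J₁ (((H K).and (hch.ful (ρ / 4) (by positivity))).and
    (pos_bas L.pos)) ?_⟩
  rintro J hJ F A ⟨⟨H, hful⟩, hA⟩ V z hz u hu
  have hJ0 : (0 : ℝ) ≤ J := Nat.cast_nonneg J
  have hJ2 : 4 ≤ ρ * J := by
    have h1 : (J₁ : ℝ) ≤ J := by exact_mod_cast hJ
    have := hJ₁.trans h1
    rw [div_le_iff₀ hρ] at this
    linarith
  obtain ⟨h1, h2⟩ := H V z hz u hu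
  obtain ⟨⟨χ₁, hχ₁⟩, χ₂, hχ₂⟩ := hz.1
  have w1 := hful V χ₁ χ₂ (fun ω hω => (hχ₁ ω hω).symm.trans (hχ₂ ω hω)) i (Nat.zero_le _) hi
  obtain ⟨q, hq⟩ : ∃ q : F.Ω → ℝ, q = Pool.Agent.H49.Ent.cond F.p A True := ⟨_, rfl⟩
  have hql : IsLaw q := by
    rw [hq]
    exact isLaw_cond F.isLaw hA
  have h0 := hql.nonneg
  have hqA : ∀ ω, 0 < q ω → A ω := fun ω hω => by
    rw [hq] at hω
    exact of_cond_pos hω
  rw [← hq] at h1 h2 w1 ⊢
  obtain ⟨C, hC⟩ : ∃ C : F.Ω → (Fin i → ℤ) × (V × (ℕ × F.ζ)), C = fun ω =>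
    ((fun l : Fin i => F.X J ω (c l)), (z ω, F.W ω)) := ⟨_, rfl⟩
  obtain ⟨Dg, hDg⟩ : ∃ Dg : F.Ω → ℤ, Dg = fun ω => F.X ⌊N * J⌋₊ ω (c i) := ⟨_, rfl⟩
  obtain ⟨Xi, hXi⟩ : ∃ Xi : F.Ω → ℤ, Xi = fun ω => F.X J ω (c i) := ⟨_, rfl⟩
  have hNJ : ⌊N * J⌋₊ ≤ J := floor_le hN1 J
  have hce : ∀ ω ω', C ω = C ω' → ceI ((range i).image c) (fun _ => J) (F.x ω) =
      ceI ((range i).image c) (fun _ => J) (F.x ω') ∧ z ω = z ω' ∧ F.W ω = F.W ω' := by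
    intro ω ω' e
    rw [hC] at e
    simp only [Prod.mk.injEq] at e
    exact ⟨ceI_tup le_rfl fun l hl => congrFun e.1 ⟨l, hl⟩, e.2⟩
  rw [← hDg] at h2
  have g1 : CH q Xi C ≤ CH q Dg C + CH q Xi (fun ω => (Dg ω, C ω)) := CH_le_add h0 Xi Dg C
  have g2 : CH q Xi (fun ω => (Dg ω, C ω)) ≤ ((1 - N) * J + 1) * Real.log 2 := by
    rw [hXi, hDg]
    refine (X_more hql hNJ (c i) C).trans (mul_le_mul_of_nonneg_right ?_ hl2.le)
    have h2 := (Nat.lt_floor_add_one (N * J)).le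
    linarith
  have g3 : CH q Dg C ≤ CH q u C + CH q Dg (fun ω => (u ω, C ω)) := CH_le_add h0 Dg u C
  have g4 : CH q Dg (fun ω => (u ω, C ω)) ≤ ρ / 4 * J := by
    refine le_trans (CH_mono_cond h0 fun ω ω' _ _ e => ?_) h2
    simp only [Prod.mk.injEq] at e ⊢
    obtain ⟨e1, e2, e3⟩ := hce ω ω' e.2
    exact ⟨e.1, e1, e2, e3⟩
  have g5 : (1 - sn i w - ρ / 4) * Real.log 2 * J ≤ CH q Xi C := by
    refine w1.trans ?_
    rw [hXi]
    refine CH_mono_cond h0 fun ω ω' hω hω' e => ?_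
    rw [hC]
    simp only [Prod.mk.injEq] at e ⊢
    refine ⟨e.1, ?_, e.2.2⟩
    rw [hχ₂ ω (hqA ω hω), hχ₂ ω' (hqA ω' hω')]
    exact e.2.1
  have e5 : ρ / 4 * Real.log 2 * J ≤ ρ / 4 * J := by
    have : ρ / 4 * Real.log 2 ≤ ρ / 4 * 1 := mul_le_mul_of_nonneg_left hl1 (by positivity)
    rw [mul_one] at this
    exact mul_le_mul_of_nonneg_right this hJ0
  have e6 : (fun ω => (F.X J ω (c i), ((fun l : Fin i => F.X J ω (c l)), (z ω, F.W ω)))) =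
      fun ω => (Xi ω, C ω) := by rw [hXi, hC]
  rw [← hC, e6]
  constructor
  · linarith
  · have k1 := CH_le_add h0 u Dg (fun ω => (Xi ω, C ω))
    have k2 : CH q Dg (fun ω => (Xi ω, C ω)) = 0 := by
      refine CH_eq_zero h0 fun ω ω' _ _ e => ?_
      simp only [Prod.mk.injEq] at e
      have e1 := e.1
      rw [hXi] at e1
      rw [hDg]
      show F.X ⌊N * J⌋₊ ω (c i) = F.X ⌊N * J⌋₊ ω' (c i)
      rw [Pool.OWN68.fX_coarse F hNJ, Pool.OWN68.fX_coarse F hNJ (c i) ω']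
      simp only at e1
      rw [e1]
    have k3 : CH q u (fun ω => (Dg ω, (Xi ω, C ω))) ≤ ρ / 4 * J := by
      refine le_trans (CH_mono_cond h0 fun ω ω' _ _ e => ?_) h1
      simp only [Prod.mk.injEq] at e ⊢
      obtain ⟨e1, e2, e3⟩ := hce ω ω' e.2.2
      have e4 := e.1
      rw [hDg] at e4
      exact ⟨e4, e1, e2, e3⟩
    linarith

/-- **The heights of a pair are full** given the record and the exact positions of the places
before. -/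
theorem pair_ful (L : Lad S c r sn {w} w w φ) {k : ℕ} (hk : k + 1 < r) {N₀ N₁ p₀ p₁ : ℝ}
    (hp₀ : sn k w - φ ≤ p₀) (hp₁ : sn (k + 1) w - φ ≤ p₁) (h00 : 0 ≤ N₀) (h01 : N₀ ≤ 1)
    (h10 : 0 ≤ N₁) (h11 : N₁ ≤ 1) (t0 : N₀ + 20 * ((r : ℝ) + 1) * φ ≤ sn k w + (1 - w))
    (t0' : N₁ + 20 * ((r : ℝ) + 1) * φ ≤ sn (k + 1) w + (1 - w))
    (t1 : ∀ l < k, N₀ + 20 * ((r : ℝ) + 1) * φ ≤ sn k w + (1 - sn l w))
    (t1' : ∀ l < k + 1, N₁ + 20 * ((r : ℝ) + 1) * φ ≤ sn (k + 1) w + (1 - sn l w)) {ρ : ℝ}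
    (hρ : 0 < ρ) :
    ∃ κ : ℝ, 0 < κ ∧ ∃ e : ℝ, 0 < e ∧ ∀ K : ℕ, Bas S (fun J F A =>
      ∀ (V : Type) (z : F.Ω → V), Mx (fun J F => ptr F J) (vg w) κ F A z → ∀ u v,
      (qJet m ((range k).image c) (c k) 0 w p₀ N₀).P K e J F A u →
      (qJet m ((range (k + 1)).image c) (c (k + 1)) 0 w p₁ N₁).P K e J F A v →
      ((N₀ - sn k w) + (N₁ - sn (k + 1) w)) * Real.log 2 * J - ρ * J ≤
        CH (Pool.Agent.H49.Ent.cond F.p A True) (fun ω => (u ω, v ω))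
        (fun ω => ((fun l : Fin k => F.X J ω (c l)), (z ω, F.W ω)))) := by
  obtain ⟨κ₀, hκ₀, e₀, he₀, H₀⟩ := dig_ful L (show k < r by omega) hp₀ h00 h01 t0 t1
    (show 0 < ρ / 3 by positivity)
  obtain ⟨κ₁, hκ₁, e₁, he₁, H₁⟩ := dig_ful L hk hp₁ h10 h11 t0' t1'
    (show 0 < ρ / 3 by positivity)
  refine ⟨min κ₀ κ₁, lt_min hκ₀ hκ₁, min e₀ e₁, lt_min he₀ he₁, fun K => Bas.mono 0
    (((H₀ K).and (H₁ K)).and (pos_bas L.pos)) ?_⟩
  rintro J - F A ⟨⟨H₀, H₁⟩, hA⟩ V z hz u v hu hv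
  have hJ0 : (0 : ℝ) ≤ J := Nat.cast_nonneg J
  obtain ⟨a1, a2⟩ := H₀ V z (Mx.le' (min_le_left _ _) hz) u
    ((qJet m _ _ _ _ _ _).mono le_rfl (min_le_left _ _) hu)
  obtain ⟨b1, -⟩ := H₁ V z (Mx.le' (min_le_right _ _) hz) v
    ((qJet m _ _ _ _ _ _).mono le_rfl (min_le_right _ _) hv)
  have h0 := (isLaw_cond F.isLaw hA).nonneg
  obtain ⟨q, hq⟩ : ∃ q : F.Ω → ℝ, q = Pool.Agent.H49.Ent.cond F.p A True := ⟨_, rfl⟩
  rw [← hq] at h0 a1 a2 b1 ⊢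
  obtain ⟨C, hC⟩ : ∃ C : F.Ω → (Fin k → ℤ) × (V × (ℕ × F.ζ)), C = fun ω =>
    ((fun l : Fin k => F.X J ω (c l)), (z ω, F.W ω)) := ⟨_, rfl⟩
  obtain ⟨C', hC'⟩ : ∃ C' : F.Ω → (Fin (k + 1) → ℤ) × (V × (ℕ × F.ζ)), C' = fun ω =>
    ((fun l : Fin (k + 1) => F.X J ω (c l)), (z ω, F.W ω)) := ⟨_, rfl⟩
  rw [← hC] at a1 ⊢
  rw [← hC'] at b1
  have c1 : CH q (fun ω => (u ω, v ω)) C = CH q (fun ω => (v ω, u ω)) C := by
    refine CH_congr h0 ?_ ?_ (fun _ _ _ _ e => e) (fun _ _ _ _ e => e)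
    · intro ω ω' _ _ e
      simp only [Prod.mk.injEq] at e ⊢
      exact ⟨e.1.2, e.1.1⟩
    · intro ω ω' _ _ e
      simp only [Prod.mk.injEq] at e ⊢
      exact ⟨e.1.2, e.1.1⟩
  have c2 := CH_chain h0 v u C
  have c3 : CH q v (fun ω => (u ω, C' ω)) ≤ CH q v (fun ω => (u ω, C ω)) :=
    CH_mono_cond h0 fun ω ω' _ _ e => by
      rw [hC'] at e
      rw [hC]
      simp only [Prod.mk.injEq] at e ⊢
      exact ⟨e.1, funext fun l => congrFun e.2.1 ⟨l, by omega⟩, e.2.2⟩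
  have c4 := Pool.OWN68.CH_exch h0 v u C'
  have c5 := CH_nonneg h0 u (fun ω => (v ω, C' ω))
  have c6 : CH q u C' ≤ CH q u (fun ω => (F.X J ω (c k),
      ((fun l : Fin k => F.X J ω (c l)), (z ω, F.W ω)))) := CH_mono_cond h0 fun ω ω' _ _ e => by
    rw [hC'] at e
    simp only [Prod.mk.injEq] at e ⊢
    exact ⟨congrFun e.1 ⟨k, by omega⟩, funext fun l => congrFun e.1 ⟨l, by omega⟩, e.2⟩
  rw [c1, c2]
  have e1 : ((N₀ - sn k w) + (N₁ - sn (k + 1) w)) * Real.log 2 * J =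
      (N₀ - sn k w) * Real.log 2 * J + (N₁ - sn (k + 1) w) * Real.log 2 * J := by ring
  rw [e1]
  linarith

end Pool.NV91
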