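import Pool.Agent.H91.NV.Strip

/-!
# The pair is not in a closed strip

`strip_void`: on an event of constant mass the natural heights of two places are not in a strip of
width `2 ^ (-θ' J)` with closed data, given the exact positions of the places before.
-/

set_option autoImplicit false

namespace Pool.NV91

open Finset Real MvPolynomial
open Pool.Agent.H49.Ent Pool.Agent.H32.Dense
open Pool.STK hiding pr2
open Pool.KA Pool.KSAT Pool.K2S Pool.PB Pool.S6C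
open Pool.GEN Pool.CHT Pool.CHX Pool.ISO Pool.LA91 Pool.AVG71 Pool.AVG5 Pool.D2F2 Pool.AVG57
open Pool.RCD Pool.AVG96 Pool.OWN68 Pool.V0F Pool.V0Q Pool.V0T
open Pool.AJW (CfB)
open Pool.UNJ (ceI)
open Pool.GRD (LbP)

variable {m : ℕ}

/-- **The natural height** of the place `l` over its label at the window `w`. -/
noncomputable def nh {J : ℕ} (F : Fam m J) (c : ℕ → Fin m) (w : ℝ) (sn : ℕ → ℝ → ℝ)
    (H : LnT F → ℕ → MvPolynomial (Option (Fin m)) ℝ) (l : ℕ) (ω : F.Ω) : ℝ :=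
  2 ^ (sn l w * J) * ojet F (c l) 0 (H (slam F ⌊w * J⌋₊ ω) l) ω

theorem th0_nh {J : ℕ} (F : Fam m J) (c : ℕ → Fin m) (w : ℝ) (sn : ℕ → ℝ → ℝ)
    (H : LnT F → ℕ → MvPolynomial (Option (Fin m)) ℝ) (l : ℕ) (θ : ℝ) (ω : F.Ω) :
    th0 F c l ⌊w * J⌋₊ H (sn l w + θ) ω = ⌊(2 : ℝ) ^ (θ * J) * nh F c w sn H l ω⌋ := by
  unfold th0 nh
  congr 1
  rw [← mul_assoc, ← Real.rpow_add (by norm_num)]
  congr 2
  ring

theorem nh_le {J : ℕ} {F : Fam m J} {c : ℕ → Fin m} {l D : ℕ} {w φ E : ℝ} {sn : ℕ → ℝ → ℝ}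
    {A : F.Ω → Prop} {H : LnT F → ℕ → MvPolynomial (Option (Fin m)) ℝ}
    (L : LdW F c l D w φ E sn A H) {ω : F.Ω} (hω : A ω) :
    |nh F c w sn H l ω| ≤ 2 * 2 ^ (φ * J) := by
  obtain ⟨V, z, z', G, h1, h2⟩ := L.lt
  have h3 := h1.pos ω hω
  rw [h2] at h3
  unfold nh
  rw [Pool.LA91.ojet_zero, abs_mul, abs_of_pos (by positivity)]
  have h4 : (1 : ℝ) / 2 ^ ⌊(sn l w - φ) * J⌋₊ ≤ 2 * 2 ^ (-((sn l w - φ) * J)) := by
    have h5 := (Nat.lt_floor_add_one ((sn l w - φ) * (J : ℝ))).le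
    rw [div_le_iff₀ (by positivity)]
    have h6 : (2 : ℝ) * 2 ^ (-((sn l w - φ) * J)) * 2 ^ ⌊(sn l w - φ) * (J : ℝ)⌋₊ =
        2 ^ (1 + -((sn l w - φ) * J) + ((⌊(sn l w - φ) * (J : ℝ)⌋₊ : ℕ) : ℝ)) := by
      rw [Real.rpow_add (by norm_num), Real.rpow_add (by norm_num), Real.rpow_one,
        Real.rpow_natCast]
    rw [h6]
    exact Real.one_le_rpow (by norm_num) (by linarith)
  refine (mul_le_mul_of_nonneg_left (h3.trans h4) (by positivity)).trans (le_of_eq ?_)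
  have h7 : (2 : ℝ) ^ (sn l w * J) * (2 * 2 ^ (-((sn l w - φ) * J))) =
      2 * (2 ^ (sn l w * J) * 2 ^ (-((sn l w - φ) * J))) := by ring
  rw [h7, ← Real.rpow_add (by norm_num)]
  congr 2
  ring

/-- Two integers of a strip, real form. -/
theorem strip_two {i : Fin 2} {ν ν' a a' : Fin 2 → ℝ} {g g' X R Z : ℝ} (hν : ν i = 1)
    (hν' : ν' i = 1) (h1 : ∀ l, |ν' l| ≤ 1) (hd : ∀ l, |ν l - ν' l| ≤ Z) (hg : |g - g'| ≤ X)
    (ha : ∀ l, |a l| ≤ R) (hf : ∀ j, j ≠ i → ⌊a j⌋ = ⌊a' j⌋)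
    (hs : |∑ l, ν l * a l - g| ≤ X) (hs' : |∑ l, ν' l * a' l - g'| ≤ X) :
    |((⌊a i⌋ : ℤ) : ℝ) - ⌊a' i⌋| ≤ 3 * X + Z * R + 2 := by
  have hZ0 : 0 ≤ Z := (abs_nonneg _).trans (hd i)
  have key : ∀ j : Fin 2, j ≠ i → (∑ l, ν l * a l = ν i * a i + ν j * a j) →
      (∑ l, ν' l * a' l = ν' i * a' i + ν' j * a' j) →
      |((⌊a i⌋ : ℤ) : ℝ) - ⌊a' i⌋| ≤ 3 * X + Z * R + 2 := by
    intro j hj e1 e2
    rw [e1, hν, one_mul] at hs
    rw [e2, hν', one_mul] at hs'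
    have h2 : |ν' j * (a j - a' j)| ≤ 1 := by
      have h3 := Int.abs_sub_lt_one_of_floor_eq_floor (hf j hj)
      rw [abs_mul]
      have := mul_le_mul (h1 j) h3.le (abs_nonneg _) zero_le_one
      linarith
    have h4 : |(ν j - ν' j) * a j| ≤ Z * R := by
      rw [abs_mul]
      exact mul_le_mul (hd j) (ha j) (abs_nonneg _) hZ0
    have e3 : a i - a' i = (a i + ν j * a j - g) - (a' i + ν' j * a' j - g') + (g - g') -
        ν' j * (a j - a' j) - (ν j - ν' j) * a j := by ring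
    have h5 : |a i - a' i| ≤ 3 * X + Z * R + 1 := by
      rw [e3]
      have s1 := abs_le.1 hs
      have s2 := abs_le.1 hs'
      have s3 := abs_le.1 hg
      have s4 := abs_le.1 h2
      have s5 := abs_le.1 h4
      rw [abs_le]
      constructor <;> linarith
    have f1 := Int.floor_le (a i)
    have f2 := Int.lt_floor_add_one (a i)
    have f3 := Int.floor_le (a' i)
    have f4 := Int.lt_floor_add_one (a' i)
    have f5 := abs_le.1 h5
    rw [abs_le]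
    constructor <;> linarith
  rcases Fin.exists_fin_two.1 ⟨i, rfl⟩ with h | h
  · subst h
    exact key 1 (by decide) (Fin.sum_univ_two _) (Fin.sum_univ_two _)
  · subst h
    exact key 0 (by decide) ((Fin.sum_univ_two _).trans (add_comm _ _))
      ((Fin.sum_univ_two _).trans (add_comm _ _))

variable {S : PCl m} {c : ℕ → Fin m} {r : ℕ} {sn : ℕ → ℝ → ℝ} {w φ : ℝ}

/-- **The pair is not in a closed strip.** -/
theorem strip_void (L : Lad S c r sn {w} w w φ) {k : ℕ} (hk : k + 1 < r) (D : ℕ) {θ E π₀ : ℝ}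
    (hθ : 0 < θ) (hφθ : 16 * φ ≤ θ) (hw : θ + w + 20 * ((r : ℝ) + 1) * φ ≤ 1)
    (hs : ∀ i ≤ k + 1, θ + sn i w + 20 * ((r : ℝ) + 1) * φ ≤ 1) (hπ : 0 < π₀) :
    Bas S (fun J F A => ∀ H : LnT F → ℕ → MvPolynomial (Option (Fin m)) ℝ,
      LdW F c k D w φ E sn A H → LdW F c (k + 1) D w φ E sn A H →
      ∀ B : F.Ω → Prop, Sub B A → π₀ * Pe F.p A ≤ Pe F.p B →
      ∀ (V : Type) (z : F.Ω → V), Cl2 (ptr F J) (vg w J F) B z →
      ∀ (i : Fin 2) (ν : Fin 2 → F.Ω → ℝ) (g : F.Ω → ℝ),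
      (∀ ω, B ω → ν i ω = 1 ∧ ∀ l, |ν l ω| ≤ 1) →
      (∀ ω ω', B ω → B ω' → z ω = z ω' → (∀ l < k, F.X J ω (c l) = F.X J ω' (c l)) →
        F.W ω = F.W ω' → (∀ l, |ν l ω - ν l ω'| ≤ 2 ^ (-(7 / 8 * θ * J))) ∧
          |g ω - g ω'| ≤ 2 ^ (-(7 / 8 * θ * J))) →
      (∀ ω, B ω → |∑ l : Fin 2, ν l ω * nh F c w sn H (k + l) ω - g ω| ≤
        2 ^ (-(7 / 8 * θ * J))) → False) := by
  have hφ := L.φ0
  have hr0 : (0 : ℝ) ≤ r := Nat.cast_nonneg r
  have hrφ : 0 ≤ 20 * ((r : ℝ) + 1) * φ := by positivity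
  obtain ⟨u₁, rd, -, hch⟩ := L.ch.ch w (Set.mem_singleton w)
  have hsn : ∀ i ≤ k + 1, 0 ≤ sn i w := fun i hi => (hch.s0 i (Nat.zero_le _) (by omega)).1
  have hw0 := hch.w0
  have hw1 : w ≤ 1 := by linarith
  have hl2 : 0 < Real.log 2 := Real.log_pos one_lt_two
  have hl2' : 0.69 < Real.log 2 := by
    have := Real.log_two_gt_d9
    linarith
  obtain ⟨κ, hκ, e, he, H0⟩ := pair_ful L hk (N₀ := sn k w + θ) (N₁ := sn (k + 1) w + θ)
    (p₀ := sn k w - φ) (p₁ := sn (k + 1) w - φ) le_rfl le_rfl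
    (by linarith [hsn k (by omega)]) (by linarith [hs k (by omega)])
    (by linarith [hsn (k + 1) le_rfl]) (by linarith [hs (k + 1) le_rfl]) (by linarith)
    (by linarith) (fun l hl => by linarith [hs l (by omega)])
    (fun l hl => by linarith [hs l (by omega)]) (show 0 < θ / 8 by positivity)
  obtain ⟨M₁, J₁, hM₁⟩ := ldw_th m D (sn k w + θ) (w := w) (E := E) hw0 hw1
  obtain ⟨M₂, J₂, hM₂⟩ := ldw_th m D (sn (k + 1) w + θ) (w := w) (E := E) hw0 hw1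
  obtain ⟨J₃, hJ₃⟩ := exists_nat_ge (56 / θ)
  refine Bas.mono (J₁ + J₂ + J₃) ((Pool.GRW.bas_part (H0 (M₁ + M₂)) (inv_pos.2 hπ)).and
    (pos_bas L.pos)) ?_
  rintro J hJ F A ⟨H0, hA⟩ H L₀ L₁ B hB hPB V z hz i ν g hν hzd hstrip
  have hJ0 : (0 : ℝ) ≤ J := Nat.cast_nonneg J
  have hJ4 : 56 ≤ θ * J := by
    have h1 : J₃ ≤ J := by omega
    have h2 : (J₃ : ℝ) ≤ J := by exact_mod_cast h1
    have := hJ₃.trans h2
    rw [div_le_iff₀ hθ] at this
    linarith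
  have hPB' : Pe F.p A ≤ π₀⁻¹ * Pe F.p B := by
    rw [inv_mul_eq_div, le_div_iff₀ hπ, mul_comm]
    exact hPB
  have hB0 : 0 < Pe F.p B := lt_of_lt_of_le (mul_pos hπ hA) hPB
  obtain ⟨V', z', hz', hfin⟩ := mx_fin (fun J F => ptr F J) (vg w) F hB0
  have q1 := hM₁ (M₁ + M₂) (by omega) J (by omega) L₀ e he.le
  have q2 := hM₂ (M₁ + M₂) (by omega) J (by omega) L₁ e he.le
  have h1 := H0 B hB hPB' V' z' (hz' κ hκ.le) _ _ ((qJet m _ _ _ _ _ _).sub hB q1)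
    ((qJet m _ _ _ _ _ _).sub hB q2)
  obtain ⟨q, hq⟩ : ∃ q : F.Ω → ℝ, q = Pool.Agent.H49.Ent.cond F.p B True := ⟨_, rfl⟩
  have hql : IsLaw q := by
    rw [hq]
    exact isLaw_cond F.isLaw hB0
  have hqB : ∀ ω, 0 < q ω → B ω := fun ω hω => by
    rw [hq] at hω
    exact of_cond_pos hω
  rw [← hq] at h1
  -- the heights in units `2 ^ (-θ J)`
  obtain ⟨u, hu⟩ : ∃ u : Fin 2 → F.Ω → ℤ, u = fun (l : Fin 2) ω =>
    th0 F c (k + l) ⌊w * J⌋₊ H (sn (k + l) w + θ) ω := ⟨_, rfl⟩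
  have hLd : ∀ l : Fin 2, LdW F c (k + l) D w φ E sn A H := by
    intro l
    rcases Fin.exists_fin_two.1 ⟨l, rfl⟩ with h | h
    · rw [h]
      exact L₀
    · rw [h]
      exact L₁
  obtain ⟨al, hal⟩ : ∃ al : Fin 2 → F.Ω → ℝ, al = fun (l : Fin 2) ω =>
    (2 : ℝ) ^ (θ * J) * nh F c w sn H (k + l) ω := ⟨_, rfl⟩
  have hua : ∀ l ω, u l ω = ⌊al l ω⌋ := fun l ω => by
    rw [hu, hal]
    exact th0_nh F c w sn H (k + l) θ ω
  have hP0 : (0 : ℝ) < 2 ^ (θ * J) := by positivity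
  have hale : ∀ l ω, B ω → |al l ω| ≤ 2 * 2 ^ ((θ + φ) * J) := fun l ω hω => by
    rw [hal]
    show |(2 : ℝ) ^ (θ * J) * nh F c w sn H (k + l) ω| ≤ _
    rw [abs_mul, abs_of_pos hP0]
    have e1 : (2 : ℝ) ^ ((θ + φ) * J) = 2 ^ (θ * J) * 2 ^ (φ * J) := by
      rw [← Real.rpow_add (by norm_num)]
      congr 1
      ring
    rw [e1]
    have := mul_le_mul_of_nonneg_left (nh_le (hLd l) (hB ω hω)) hP0.le
    linarith
  have hX0 : (2 : ℝ) ^ (θ * J) * 2 ^ (-(7 / 8 * θ * J)) = 2 ^ (θ / 8 * J) := by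
    rw [← Real.rpow_add (by norm_num)]
    congr 1
    ring
  have hone : (1 : ℝ) ≤ 2 ^ ((θ / 8 + φ) * J) :=
    Real.one_le_rpow (by norm_num) (by positivity)
  have hone' : (1 : ℝ) ≤ 2 ^ ((θ + φ) * J) :=
    Real.one_le_rpow (by norm_num) (by positivity)
  have hXY : (2 : ℝ) ^ (θ / 8 * J) ≤ 2 ^ ((θ / 8 + φ) * J) := by
    refine Real.rpow_le_rpow_of_exponent_le (by norm_num) ?_
    have : 0 ≤ φ * J := by positivity
    linarith
  have key := strip_le hql.nonneg hql.sum_one (C := fun ω =>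
      ((fun l : Fin k => F.X J ω (c l)), (z' ω, F.W ω))) (u := u) i
      (R := 3 * 2 ^ ((θ + φ) * J)) (M := 7 * 2 ^ ((θ / 8 + φ) * J)) (by positivity)
      (by positivity) (fun l ω hω => ?_) (fun ω ω' hω hω' eC hj => ?_)
  · have e0 : (fun ω => (u 0 ω, u 1 ω)) = fun ω => (th0 F c k ⌊w * J⌋₊ H (sn k w + θ) ω,
        th0 F c (k + 1) ⌊w * J⌋₊ H (sn (k + 1) w + θ) ω) := by
      rw [hu]
      rfl
    rw [e0] at key
    have e1 : ((sn k w + θ - sn k w) + (sn (k + 1) w + θ - sn (k + 1) w)) * Real.log 2 * J -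
        θ / 8 * J = 2 * (θ * J) * Real.log 2 - θ * J / 8 := by ring
    rw [e1] at h1
    have e2 : Real.log (4 * (3 * 2 ^ ((θ + φ) * J)) + 1) ≤
        Real.log 13 + (θ + φ) * J * Real.log 2 := by
      rw [← Real.log_rpow (by norm_num : (0 : ℝ) < 2), ← Real.log_mul (by norm_num) (by positivity)]
      exact Real.log_le_log (by positivity) (by linarith)
    have e3 : Real.log (2 * (7 * 2 ^ ((θ / 8 + φ) * J)) + 1) ≤
        Real.log 15 + (θ / 8 + φ) * J * Real.log 2 := by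
      rw [← Real.log_rpow (by norm_num : (0 : ℝ) < 2), ← Real.log_mul (by norm_num) (by positivity)]
      exact Real.log_le_log (by positivity) (by linarith)
    have e4 : Real.log 13 ≤ 3 := by
      rw [Real.log_le_iff_le_exp (by norm_num)]
      have := Real.exp_one_gt_d9
      have h2 : Real.exp 3 = Real.exp 1 ^ 3 := by rw [← Real.exp_nat_mul]; norm_num
      rw [h2]
      have h3 : (2.7 : ℝ) ^ 3 ≤ Real.exp 1 ^ 3 := pow_le_pow_left₀ (by norm_num) (by linarith) 3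
      refine le_trans ?_ h3
      norm_num
    have e5 : Real.log 15 ≤ 3 := by
      rw [Real.log_le_iff_le_exp (by norm_num)]
      have := Real.exp_one_gt_d9
      have h2 : Real.exp 3 = Real.exp 1 ^ 3 := by rw [← Real.exp_nat_mul]; norm_num
      rw [h2]
      have h3 : (2.7 : ℝ) ^ 3 ≤ Real.exp 1 ^ 3 := pow_le_pow_left₀ (by norm_num) (by linarith) 3
      refine le_trans ?_ h3
      norm_num
    have e6 : 16 * (φ * J) ≤ θ * J := by
      have := mul_le_mul_of_nonneg_right hφθ hJ0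
      linarith
    have e7 : (θ + φ) * J * Real.log 2 + (θ / 8 + φ) * J * Real.log 2 ≤
        5 / 4 * (θ * J) * Real.log 2 := by
      have : (θ + φ) * J + (θ / 8 + φ) * J ≤ 5 / 4 * (θ * J) := by linarith
      have := mul_le_mul_of_nonneg_right this hl2.le
      linarith
    have e8 : 3 / 4 * (θ * J) * 0.69 ≤ 3 / 4 * (θ * J) * Real.log 2 :=
      mul_le_mul_of_nonneg_left hl2'.le (by positivity)
    linarith
  · -- the sizes
    have h2 := hale l ω (hqB ω hω)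
    rw [hua]
    have f1 := Int.floor_le (al l ω)
    have f2 := Int.lt_floor_add_one (al l ω)
    have f3 := abs_le.1 h2
    rw [abs_le]
    constructor <;> linarith
  · -- the strip
    have hωB := hqB ω hω
    have hωB' := hqB ω' hω'
    simp only [Prod.mk.injEq] at eC
    have hzz : z ω = z ω' := hfin V z hz ω ω' hωB hωB' eC.2.1
    obtain ⟨d1, d2⟩ := hzd ω ω' hωB hωB' hzz (fun l hl => congrFun eC.1 ⟨l, hl⟩) eC.2.2
    have hsc : ∀ ω, B ω → |∑ l : Fin 2, ν l ω * al l ω - 2 ^ (θ * J) * g ω| ≤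
        2 ^ (θ / 8 * J) := fun ω hω => by
      have h2 := mul_le_mul_of_nonneg_left (hstrip ω hω) hP0.le
      rw [hX0] at h2
      refine le_trans (le_of_eq ?_) h2
      rw [← abs_of_pos hP0, ← abs_mul, abs_of_pos hP0, mul_sub, Finset.mul_sum]
      congr 2
      refine Finset.sum_congr rfl fun l _ => ?_
      rw [hal]
      ring
    have h3 := strip_two (i := i) (ν := fun l => ν l ω) (ν' := fun l => ν l ω')
      (a := fun l => al l ω) (a' := fun l => al l ω') (g := 2 ^ (θ * J) * g ω)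
      (g' := 2 ^ (θ * J) * g ω') (X := 2 ^ (θ / 8 * J)) (R := 2 * 2 ^ ((θ + φ) * J))
      (Z := 2 ^ (-(7 / 8 * θ * J))) (hν ω hωB).1 (hν ω' hωB').1 (hν ω' hωB').2 d1
      (by
        rw [← mul_sub, abs_mul, abs_of_pos hP0, ← hX0]
        exact mul_le_mul_of_nonneg_left d2 hP0.le) (fun l => hale l ω hωB)
      (fun j hji => by
        have := hj j hji
        rw [hua, hua] at this
        exact this) (hsc ω hωB) (hsc ω' hωB')
    rw [hua, hua]
    refine h3.trans ?_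
    have e1 : (2 : ℝ) ^ (-(7 / 8 * θ * J)) * (2 * 2 ^ ((θ + φ) * J)) =
        2 * 2 ^ ((θ / 8 + φ) * J) := by
      have e2 : (2 : ℝ) ^ (-(7 / 8 * θ * J)) * (2 * 2 ^ ((θ + φ) * J)) =
          2 * (2 ^ (-(7 / 8 * θ * J)) * 2 ^ ((θ + φ) * J)) := by ring
      rw [e2, ← Real.rpow_add (by norm_num)]
      congr 2
      ring
    rw [e1]
    linarith

end Pool.NV91
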